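import Mathlib

/-!
Spaces of analytic functions and of germs (problem MP_d29d91_an): definitions.
-/

set_option autoImplicit false

namespace Pool.Agent.Helper18.Germ

open Set Topology Metric

/-- `𝒪(V)`: the space of all functions analytic in `V`, as a subspace of the space `C(V, ℂ)` of
continuous functions on `V` with the topology of uniform convergence on compact subsets of `V`
(the compact-open topology). Used for open `V`. -/
def Hol (V : Set ℂ) : Submodule ℂ C(V, ℂ) where
  carrier := {f | ∃ F : ℂ → ℂ, AnalyticOnNhd ℂ F V ∧ ∀ z : V, F z = f z}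
  add_mem' := by
    rintro f g ⟨F, hF, hF'⟩ ⟨G, hG, hG'⟩
    exact ⟨F + G, hF.add hG, fun z => by simp [hF', hG']⟩
  zero_mem' := ⟨0, analyticOnNhd_const, fun z => by simp⟩
  smul_mem' := by
    rintro c f ⟨F, hF, hF'⟩
    exact ⟨fun z => c • F z, analyticOnNhd_const.smul hF, fun z => by simp [hF']⟩

/-- the open neighbourhoods of `E` -/
structure OpenNbhd (E : Set ℂ) where
  /-- the underlying set -/
  carrier : Set ℂ
  isOpen : IsOpen carrier
  subset : E ⊆ carrier

/-- the open neighbourhoods of `E` are directed by reverse inclusion -/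
instance (E : Set ℂ) : Preorder (OpenNbhd E) where
  le V W := W.carrier ⊆ V.carrier
  le_refl _ := subset_rfl
  le_trans _ _ _ h h' := h'.trans h

/-- the restriction map `𝒪(V) → 𝒪(W)` for `W ⊆ V` -/
noncomputable def res {V W : Set ℂ} (h : W ⊆ V) : Hol V →ₗ[ℂ] Hol W where
  toFun f := ⟨f.1.comp ⟨inclusion h, continuous_inclusion h⟩, by
    obtain ⟨F, hF, hF'⟩ := f.2
    exact ⟨F, hF.mono h, fun z => hF' (inclusion h z)⟩⟩
  map_add' _ _ := rfl
  map_smul' _ _ := rfl

open Classical in
/-- `𝒪(E)` for an arbitrary set `E`, as a vector space: the direct limit of the spaces `𝒪(V)` over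
all open neighbourhoods `V` of `E`, directed by reverse inclusion and linked by the restriction
maps. -/
def Germs (E : Set ℂ) : Type :=
  Module.DirectLimit (R := ℂ) (fun V : OpenNbhd E => Hol V.carrier)
    (fun (V W : OpenNbhd E) (h : V ≤ W) => res (V := V.carrier) (W := W.carrier) h)

open Classical in
noncomputable instance (E : Set ℂ) : AddCommGroup (Germs E) :=
  show AddCommGroup (Module.DirectLimit (R := ℂ) (fun V : OpenNbhd E => Hol V.carrier)
    (fun (V W : OpenNbhd E) (h : V ≤ W) => res (V := V.carrier) (W := W.carrier) h)) from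
  Module.DirectLimit.addCommGroup (R := ℂ) (fun V : OpenNbhd E => Hol V.carrier)
    (fun (V W : OpenNbhd E) (h : V ≤ W) => res (V := V.carrier) (W := W.carrier) h)

open Classical in
noncomputable instance (E : Set ℂ) : Module ℂ (Germs E) :=
  show Module ℂ (Module.DirectLimit (R := ℂ) (fun V : OpenNbhd E => Hol V.carrier)
    (fun (V W : OpenNbhd E) (h : V ≤ W) => res (V := V.carrier) (W := W.carrier) h)) from
  Module.DirectLimit.module (R := ℂ) (G := fun V : OpenNbhd E => Hol V.carrier)
    (fun (V W : OpenNbhd E) (h : V ≤ W) => res (V := V.carrier) (W := W.carrier) h)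

open Classical in
/-- the canonical map `𝒪(V) → 𝒪(E)`, for an open neighbourhood `V` of `E` -/
noncomputable def toGerm {E : Set ℂ} (V : OpenNbhd E) : Hol V.carrier →ₗ[ℂ] Germs E :=
  Module.DirectLimit.of ℂ (OpenNbhd E) (fun V : OpenNbhd E => Hol V.carrier)
    (fun (V W : OpenNbhd E) (h : V ≤ W) => res (V := V.carrier) (W := W.carrier) h) V

/-- The topology of `𝒪(E)`: the inductive limit topology in the category of locally convex
spaces, that is, the finest locally convex vector space topology for which all the canonical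
maps `𝒪(V) → 𝒪(E)` are continuous. (In Mathlib, `sInf` of a set of topologies is the coarsest
topology which is finer than all of them; see `germTopology_le`.) -/
noncomputable instance germTopology (E : Set ℂ) : TopologicalSpace (Germs E) :=
  sInf {t | @IsTopologicalAddGroup (Germs E) t _ ∧ @ContinuousSMul ℂ (Germs E) _ _ t ∧
    @LocallyConvexSpace ℝ (Germs E) _ _ _ _ t ∧
    ∀ V : OpenNbhd E, @Continuous _ _ _ t (toGerm V)}

instance (E : Set ℂ) : IsTopologicalAddGroup (Germs E) :=
  topologicalAddGroup_sInf fun _ h => h.1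

instance (E : Set ℂ) : ContinuousSMul ℂ (Germs E) :=
  continuousSMul_sInf fun _ h => h.2.1

instance (E : Set ℂ) : LocallyConvexSpace ℝ (Germs E) :=
  LocallyConvexSpace.sInf fun _ h => h.2.2.1

theorem continuous_toGerm {E : Set ℂ} (V : OpenNbhd E) : Continuous (toGerm V) :=
  continuous_sInf_rng.2 fun _ h => h.2.2.2 V

/-- the topology of `𝒪(E)` is finer than every locally convex topology making the canonical maps
continuous (and by the instances above it is one of them) -/
theorem germTopology_le {E : Set ℂ} (t : TopologicalSpace (Germs E))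
    (h1 : @IsTopologicalAddGroup (Germs E) t _) (h2 : @ContinuousSMul ℂ (Germs E) _ _ t)
    (h3 : @LocallyConvexSpace ℝ (Germs E) _ _ _ _ t)
    (h4 : ∀ V : OpenNbhd E, @Continuous _ _ _ t (toGerm V)) : germTopology E ≤ t :=
  sInf_le ⟨h1, h2, h3, h4⟩

/-- the universal property of the topology of `𝒪(E)` -/
theorem continuous_of_comp {E : Set ℂ} {Y : Type*} [AddCommGroup Y] [Module ℂ Y]
    [t : TopologicalSpace Y] [IsTopologicalAddGroup Y] [ContinuousSMul ℂ Y]
    [LocallyConvexSpace ℝ Y] (L : Germs E →ₗ[ℂ] Y)
    (h : ∀ V : OpenNbhd E, Continuous (fun f => L (toGerm V f))) : Continuous L := by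
  rw [continuous_iff_le_induced]
  have h1 : @IsTopologicalAddGroup (Germs E) (t.induced L) _ := topologicalAddGroup_induced L
  have h2 : @ContinuousSMul ℂ (Germs E) _ _ (t.induced L) := continuousSMul_induced L
  have h3 : @LocallyConvexSpace ℝ (Germs E) _ _ _ _ (t.induced L) :=
    LocallyConvexSpace.induced (L.restrictScalars ℝ)
  exact sInf_le ⟨h1, h2, h3, fun V => continuous_induced_rng.2 (h V)⟩

theorem toGerm_res {E : Set ℂ} {V W : OpenNbhd E} (h : W.carrier ⊆ V.carrier)
    (f : Hol V.carrier) : toGerm W (res h f) = toGerm V f := by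
  classical
  exact Module.DirectLimit.of_f (R := ℂ) (ι := OpenNbhd E)
    (G := fun V : OpenNbhd E => Hol V.carrier) (i := V) (j := W) (hij := h) (x := f)

instance (E : Set ℂ) : Nonempty (OpenNbhd E) := ⟨⟨univ, isOpen_univ, subset_univ _⟩⟩

instance (E : Set ℂ) : IsDirectedOrder (OpenNbhd E) where
  directed V W := ⟨⟨V.carrier ∩ W.carrier, V.isOpen.inter W.isOpen,
    subset_inter V.subset W.subset⟩, inter_subset_left, inter_subset_right⟩

theorem exists_toGerm {E : Set ℂ} (x : Germs E) : ∃ (V : OpenNbhd E) (f : Hol V.carrier),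
    toGerm V f = x := by
  classical
  exact Module.DirectLimit.exists_of (R := ℂ) (ι := OpenNbhd E)
    (G := fun V : OpenNbhd E => Hol V.carrier) x

/-- lifting a compatible family of linear maps -/
noncomputable def liftG {E : Set ℂ} {Y : Type*} [AddCommGroup Y] [Module ℂ Y]
    (g : ∀ V : OpenNbhd E, Hol V.carrier →ₗ[ℂ] Y)
    (hg : ∀ (V W : OpenNbhd E) (h : W.carrier ⊆ V.carrier) (f : Hol V.carrier),
      g W (res h f) = g V f) : Germs E →ₗ[ℂ] Y := by
  classical
  exact Module.DirectLimit.lift ℂ (OpenNbhd E) (fun V : OpenNbhd E => Hol V.carrier)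
    (fun (V W : OpenNbhd E) (h : V ≤ W) => res (V := V.carrier) (W := W.carrier) h) g hg

theorem liftG_toGerm {E : Set ℂ} {Y : Type*} [AddCommGroup Y] [Module ℂ Y]
    (g : ∀ V : OpenNbhd E, Hol V.carrier →ₗ[ℂ] Y)
    (hg : ∀ (V W : OpenNbhd E) (h : W.carrier ⊆ V.carrier) (f : Hol V.carrier),
      g W (res h f) = g V f) (V : OpenNbhd E) (f : Hol V.carrier) :
    liftG g hg (toGerm V f) = g V f := by
  classical
  exact Module.DirectLimit.lift_of (R := ℂ) (ι := OpenNbhd E)
    (G := fun V : OpenNbhd E => Hol V.carrier) g hg f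

end Pool.Agent.Helper18.Germ
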