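import Mathlib
import Pool.Agent.Helper18.Germ.Defs

/-!
Basic facts on the spaces `Hol V` and `Germs E` (problem MP_d29d91_an).
-/

set_option autoImplicit false

namespace Pool.Agent.Helper18.Germ

open Set Topology Metric Filter

open Classical in
/-- extension by zero -/
noncomputable def ex {V : Set ℂ} (f : Hol V) : ℂ → ℂ :=
  fun z => if h : z ∈ V then f.1 ⟨z, h⟩ else 0

theorem ex_apply {V : Set ℂ} (f : Hol V) {z : ℂ} (h : z ∈ V) : ex f z = f.1 ⟨z, h⟩ := by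
  unfold ex
  rw [dif_pos h]

theorem ex_analytic {V : Set ℂ} (hV : IsOpen V) (f : Hol V) : AnalyticOnNhd ℂ (ex f) V := by
  obtain ⟨F, hF, hF'⟩ := f.2
  intro z hz
  refine (hF z hz).congr ?_
  filter_upwards [hV.mem_nhds hz] with w hw
  rw [ex_apply f hw, hF' ⟨w, hw⟩]

theorem ex_add {V : Set ℂ} (f g : Hol V) {z : ℂ} (h : z ∈ V) :
    ex (f + g) z = ex f z + ex g z := by
  rw [ex_apply _ h, ex_apply _ h, ex_apply _ h]
  rfl

theorem ex_smul {V : Set ℂ} (c : ℂ) (f : Hol V) {z : ℂ} (h : z ∈ V) :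
    ex (c • f) z = c * ex f z := by
  rw [ex_apply _ h, ex_apply _ h]
  rfl

theorem ex_res {V W : Set ℂ} (h : W ⊆ V) (f : Hol V) {z : ℂ} (hz : z ∈ W) :
    ex (res h f) z = ex f z := by
  rw [ex_apply _ hz, ex_apply _ (h hz)]
  rfl

/-- building an element of `Hol V` -/
noncomputable def mkHol (V : Set ℂ) (F : ℂ → ℂ) (hF : AnalyticOnNhd ℂ F V) : Hol V :=
  ⟨⟨fun z : V => F z, (hF.continuousOn.comp_continuous continuous_subtype_val
    fun z => z.2)⟩, F, hF, fun _ => rfl⟩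

theorem ex_mkHol {V : Set ℂ} (F : ℂ → ℂ) (hF : AnalyticOnNhd ℂ F V) {z : ℂ} (h : z ∈ V) :
    ex (mkHol V F hF) z = F z := by
  rw [ex_apply _ h]
  rfl

theorem hol_ext {V : Set ℂ} {f g : Hol V} (h : ∀ z ∈ V, ex f z = ex g z) : f = g := by
  apply Subtype.ext
  ext z
  have := h z z.2
  rwa [ex_apply f z.2, ex_apply g z.2] at this

/-! ### Taylor coefficients -/

/-- the `j`-th Taylor coefficient of `F` at `b` -/
noncomputable def cf (F : ℂ → ℂ) (b : ℂ) (j : ℕ) : ℂ := iteratedDeriv j F b / (j.factorial : ℂ)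

theorem cf_congr {F G : ℂ → ℂ} {b : ℂ} (h : F =ᶠ[𝓝 b] G) (j : ℕ) : cf F b j = cf G b j := by
  unfold cf
  rw [h.iteratedDeriv_eq]

theorem cf_add {F G : ℂ → ℂ} {b : ℂ} (hF : AnalyticAt ℂ F b) (hG : AnalyticAt ℂ G b) (j : ℕ) :
    cf (fun z => F z + G z) b j = cf F b j + cf G b j := by
  unfold cf
  rw [iteratedDeriv_fun_add hF.contDiffAt hG.contDiffAt, add_div]

theorem cf_smul {F : ℂ → ℂ} {b : ℂ} (hF : AnalyticAt ℂ F b) (c : ℂ) (j : ℕ) :
    cf (fun z => c * F z) b j = c * cf F b j := by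
  unfold cf
  rw [iteratedDeriv_const_mul_field, mul_div_assoc]

theorem cf_bound {F : ℂ → ℂ} {b : ℂ} {r M : ℝ} (hr : 0 < r)
    (hF : AnalyticOnNhd ℂ F (closedBall b r)) (hM : ∀ z ∈ closedBall b r, ‖F z‖ ≤ M) (j : ℕ) :
    ‖cf F b j‖ ≤ M / r ^ j := by
  have h1 := Complex.norm_iteratedDeriv_le_of_forall_mem_sphere_norm_le j hr
    (f := F) (c := b) (C := M)
    (DifferentiableOn.diffContOnCl (by
      rw [closure_ball _ hr.ne']; exact hF.differentiableOn))
    (fun z hz => hM z (sphere_subset_closedBall hz))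
  unfold cf
  rw [norm_div, Complex.norm_natCast, div_le_iff₀ (by positivity)]
  refine h1.trans (le_of_eq ?_)
  ring

theorem cf_hasSum {F : ℂ → ℂ} {b : ℂ} {r : ℝ} (hF : AnalyticOnNhd ℂ F (ball b r)) {z : ℂ}
    (hz : z ∈ ball b r) : HasSum (fun j => cf F b j * (z - b) ^ j) (F z) := by
  have h := Complex.hasSum_taylorSeries_on_ball hF.differentiableOn hz
  have h2 : (fun j => cf F b j * (z - b) ^ j) =
      fun n : ℕ => (n.factorial : ℂ)⁻¹ • (z - b) ^ n • iteratedDeriv n F b := by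
    funext j
    unfold cf
    rw [smul_eq_mul, smul_eq_mul]
    ring
  rw [h2]
  exact h

/-! ### topology of `Hol V` -/

theorem mem_nhds_zero {V : Set ℂ} {K : Set V} (hK : IsCompact K) {δ : ℝ} (hδ : 0 < δ) :
    {f : Hol V | ∀ z ∈ K, ‖f.1 z‖ < δ} ∈ 𝓝 (0 : Hol V) := by
  have h1 : IsOpen {f : C(V, ℂ) | MapsTo f K (ball 0 δ)} :=
    ContinuousMap.isOpen_setOfPred_mapsTo hK isOpen_ball
  have h2 : IsOpen {f : Hol V | MapsTo f.1 K (ball 0 δ)} := h1.preimage continuous_subtype_val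
  have h3 : {f : Hol V | ∀ z ∈ K, ‖f.1 z‖ < δ} = {f : Hol V | MapsTo f.1 K (ball 0 δ)} := by
    ext f
    simp [MapsTo]
  rw [h3]
  refine h2.mem_nhds ?_
  intro z _
  simpa using hδ

theorem exists_nhds_zero {V : Set ℂ} {U : Set (Hol V)} (hU : U ∈ 𝓝 (0 : Hol V)) :
    ∃ K : Set V, IsCompact K ∧ ∃ δ : ℝ, 0 < δ ∧ ∀ f : Hol V, (∀ z ∈ K, ‖f.1 z‖ < δ) → f ∈ U := by
  rw [nhds_subtype_eq_comap, mem_comap] at hU
  obtain ⟨U', hU', hUU'⟩ := hU
  have hb := nhds_basis_uniformity'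
    ((Metric.uniformity_basis_dist (α := ℂ)).compactConvergenceUniformity (α := V))
    (x := ((0 : Hol V) : C(V, ℂ)))
  rw [hb.mem_iff] at hU'
  obtain ⟨⟨K, δ⟩, ⟨hK, hδ⟩, hsub⟩ := hU'
  refine ⟨K, hK, δ, hδ, fun f hf => hUU' (hsub ?_)⟩
  intro z hz
  change dist ((0 : C(V, ℂ)) z) (f.1 z) < δ
  rw [dist_comm]
  simpa using hf z hz

theorem continuous_of_bound {V : Set ℂ} (L : Hol V →ₗ[ℂ] ℂ) {K : Set V} (hK : IsCompact K)
    {C : ℝ} (hC : 0 < C)
    (h : ∀ (f : Hol V) (M : ℝ), (∀ z ∈ K, ‖f.1 z‖ ≤ M) → 0 < M → ‖L f‖ ≤ C * M) :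
    Continuous L := by
  have h0 : ContinuousAt L 0 := by
    rw [ContinuousAt, map_zero, Metric.tendsto_nhds]
    intro ε hε
    filter_upwards [mem_nhds_zero hK (δ := ε / (2 * C)) (by positivity)] with f hf
    rw [dist_zero_right]
    have h1 := h f (ε / (2 * C)) (fun z hz => (hf z hz).le) (by positivity)
    have h2 : C * (ε / (2 * C)) = ε / 2 := by field_simp
    rw [h2] at h1
    linarith
  exact continuous_of_continuousAt_zero L h0

/-- bounds for continuous maps -/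
theorem exists_bound_of_continuous {V W : Set ℂ} (L : Hol V →ₗ[ℂ] Hol W) (hL : Continuous L)
    {K : Set W} (hK : IsCompact K) : ∃ K' : Set V, IsCompact K' ∧ ∃ C : ℝ, 0 < C ∧
      ∀ (f : Hol V) (M : ℝ), 0 < M → (∀ z ∈ K', ‖f.1 z‖ ≤ M) → ∀ z ∈ K, ‖(L f).1 z‖ ≤ C * M := by
  have h1 : L ⁻¹' {f : Hol W | ∀ z ∈ K, ‖f.1 z‖ < 1} ∈ 𝓝 (0 : Hol V) := by
    apply hL.continuousAt.preimage_mem_nhds
    rw [map_zero]
    exact mem_nhds_zero hK one_pos
  obtain ⟨K', hK', δ, hδ, h2⟩ := exists_nhds_zero h1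
  refine ⟨K', hK', 2 / δ, by positivity, fun f M hM hf z hz => ?_⟩
  have h3 := h2 (((δ / (2 * M) : ℝ) : ℂ) • f) (fun w hw => by
    have h4 : ((((δ / (2 * M) : ℝ) : ℂ) • f : Hol V).1 w) = ((δ / (2 * M) : ℝ) : ℂ) * f.1 w := rfl
    rw [h4, norm_mul, Complex.norm_real, Real.norm_of_nonneg (by positivity)]
    calc δ / (2 * M) * ‖f.1 w‖ ≤ δ / (2 * M) * M := by gcongr; exact hf w hw
      _ = δ / 2 := by field_simp
      _ < δ := by linarith)
  have h5 := h3 z hz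
  rw [map_smul] at h5
  have h6 : ((((δ / (2 * M) : ℝ) : ℂ) • L f : Hol W).1 z) = ((δ / (2 * M) : ℝ) : ℂ) * (L f).1 z :=
    rfl
  rw [h6, norm_mul, Complex.norm_real, Real.norm_of_nonneg (by positivity), div_mul_eq_mul_div,
    div_lt_one (by positivity)] at h5
  rw [div_mul_eq_mul_div, le_div_iff₀ hδ]
  linarith

open Classical in
/-- extension by zero of a continuous function -/
noncomputable def exC {V : Set ℂ} (f : C(V, ℂ)) : ℂ → ℂ :=
  fun z => if h : z ∈ V then f ⟨z, h⟩ else 0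

theorem exC_coe {V : Set ℂ} (f : C(V, ℂ)) (z : V) : exC f z = f z := by
  unfold exC
  rw [dif_pos z.2]

theorem mem_hol_iff {V : Set ℂ} (hV : IsOpen V) (f : C(V, ℂ)) :
    f ∈ Hol V ↔ DifferentiableOn ℂ (exC f) V := by
  constructor
  · rintro ⟨F, hF, hF'⟩
    refine hF.differentiableOn.congr fun z hz => ?_
    rw [exC_coe f ⟨z, hz⟩, hF' ⟨z, hz⟩]
  · intro h
    exact ⟨exC f, h.analyticOnNhd hV, fun z => exC_coe f z⟩

theorem isClosed_hol {V : Set ℂ} (hV : IsOpen V) : IsClosed (Hol V : Set C(V, ℂ)) := by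
  have hlc : LocallyCompactSpace V := hV.locallyCompactSpace
  rw [isClosed_iff_frequently]
  intro f hf
  have hne : (𝓝[(Hol V : Set C(V, ℂ))] f).NeBot := by
    rw [← mem_closure_iff_nhdsWithin_neBot, mem_closure_iff_frequently]
    exact hf
  have h1 : Tendsto (fun g : C(V, ℂ) => g) (𝓝[(Hol V : Set C(V, ℂ))] f) (𝓝 f) :=
    tendsto_id.mono_left nhdsWithin_le_nhds
  rw [ContinuousMap.tendsto_iff_tendstoLocallyUniformly] at h1
  have h2 : TendstoLocallyUniformlyOn (fun g : C(V, ℂ) => exC g) (exC f)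
      (𝓝[(Hol V : Set C(V, ℂ))] f) V := by
    rw [tendstoLocallyUniformlyOn_iff_tendstoLocallyUniformly_comp_coe]
    have e1 : (fun (g : C(V, ℂ)) (x : V) => exC g x) = fun g a => g a := by
      funext g a
      exact exC_coe g a
    have e2 : exC f ∘ (fun x : V => (x : ℂ)) = f := by
      funext a
      exact exC_coe f a
    rw [e1]
    change TendstoLocallyUniformly _ (exC f ∘ (fun x : V => (x : ℂ))) _
    rw [e2]
    exact h1
  have h3 := h2.differentiableOn (by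
    filter_upwards [self_mem_nhdsWithin] with g hg
    exact (mem_hol_iff hV g).1 hg) hV
  exact (mem_hol_iff hV f).2 h3

theorem baire_hol {V : Set ℂ} (hV : IsOpen V) : BaireSpace (Hol V) := by
  have hlc : LocallyCompactSpace V := hV.locallyCompactSpace
  have h1 : CompleteSpace (Hol V) := (isClosed_hol hV).completeSpace_coe
  have h2 : (uniformity (Hol V)).IsCountablyGenerated := by
    have h3 : uniformity (Hol V) =
        comap (fun q : Hol V × Hol V => ((q.1 : C(V, ℂ)), (q.2 : C(V, ℂ))))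
          (uniformity C(V, ℂ)) := rfl
    rw [h3]
    infer_instance
  infer_instance

end Pool.Agent.Helper18.Germ
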