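import Mathlib

/-!
Definitions for problem MP_d29d91_an: the spaces `𝒪(V)` for open `V`, locally convex inductive
limits, and the spaces `𝒪(E)` of germs for arbitrary `E`.
-/

set_option autoImplicit false

namespace Pool.Agent.Helper18.Germ.Spaces

/-- the vector space `𝒪(V)` of the functions on `V` which are analytic in `V` (`V` open) -/
def Hol (V : Set ℂ) : Submodule ℂ (V → ℂ) where
  carrier := {f | ∃ F : ℂ → ℂ, AnalyticOnNhd ℂ F V ∧ ∀ z : V, F z = f z}
  add_mem' := by
    rintro f g ⟨F, hF, hF'⟩ ⟨G, hG, hG'⟩
    exact ⟨F + G, hF.add hG, fun z => by simp [hF', hG']⟩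
  zero_mem' := ⟨0, analyticOnNhd_const, fun z => by simp⟩
  smul_mem' := by
    rintro c f ⟨F, hF, hF'⟩
    exact ⟨fun z => c • F z, analyticOnNhd_const.smul hF, fun z => by simp [hF']⟩

/-- the topology of `𝒪(V)`: uniform convergence on the compact subsets of `V`. It is always
passed explicitly below. -/
noncomputable def holTopology (V : Set ℂ) : TopologicalSpace (Hol V) :=
  TopologicalSpace.induced
    (fun f : Hol V => UniformOnFun.ofFun {K : Set V | IsCompact K} (f : V → ℂ))
    (UniformOnFun.topologicalSpace V ℂ {K : Set V | IsCompact K})

/-- the restriction map `𝒪(V) → 𝒪(W)` for `W ⊆ V` -/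
noncomputable def res {V W : Set ℂ} (h : W ⊆ V) : Hol V →ₗ[ℂ] Hol W :=
  (LinearMap.funLeft ℂ ℂ (Set.inclusion h)).restrict (by
    rintro f ⟨F, hF, hF'⟩
    exact ⟨F, hF.mono h, fun z => hF' (Set.inclusion h z)⟩)

/-- an open neighbourhood of `E` -/
structure OpenNbhd (E : Set ℂ) where
  /-- the underlying set -/
  carrier : Set ℂ
  isOpen : IsOpen carrier
  subset : E ⊆ carrier

/-- the open neighbourhoods of `E` are directed by reverse inclusion -/
instance (E : Set ℂ) : Preorder (OpenNbhd E) where
  le V W := W.carrier ⊆ V.carrier
  le_refl _ := subset_rfl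
  le_trans _ _ _ h h' := h'.trans h

section Limit

variable {ι : Type} [Preorder ι] (G : ι → Type) [∀ i, AddCommGroup (G i)] [∀ i, Module ℂ (G i)]
  (f : ∀ i j, i ≤ j → G i →ₗ[ℂ] G j)

open Classical in
/-- the inductive limit of the vector spaces `G i`, linked by the maps `f i j` -/
def Limit : Type := Module.DirectLimit G f

open Classical in
noncomputable instance limitGroup : AddCommGroup (Limit G f) :=
  Module.DirectLimit.addCommGroup G f

open Classical in
noncomputable instance limitModule : Module ℂ (Limit G f) :=
  Module.DirectLimit.module (G := G) f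

open Classical in
/-- the canonical map `G i → lim G` -/
noncomputable def toLimit (i : ι) : G i →ₗ[ℂ] Limit G f := Module.DirectLimit.of ℂ ι G f i

/-- The inductive limit topology in the category of locally convex spaces, for given topologies
`τ i` of the spaces `G i`: the finest locally convex vector space topology for which all
canonical maps `G i → lim G` are continuous. (In Mathlib the infimum of a set of topologies is the
coarsest topology finer than all of them; the infimum of this set is again in the set.) -/
noncomputable def limitTopology (τ : ∀ i, TopologicalSpace (G i)) :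
    TopologicalSpace (Limit G f) :=
  sInf {t | @IsTopologicalAddGroup (Limit G f) t _ ∧ @ContinuousSMul ℂ (Limit G f) _ _ t ∧
    @LocallyConvexSpace ℝ (Limit G f) _ _ _ _ t ∧
    ∀ i, @Continuous (G i) (Limit G f) (τ i) t (toLimit G f i)}

end Limit

/-- `𝒪(E)` for an arbitrary set `E`, as a vector space: the inductive limit of the spaces `𝒪(V)`
over all open neighbourhoods `V` of `E`, directed by reverse inclusion and linked by the
restriction maps. -/
def Germs (E : Set ℂ) : Type :=
  Limit (fun V : OpenNbhd E => Hol V.carrier) (fun _ _ h => res h)

noncomputable instance (E : Set ℂ) : AddCommGroup (Germs E) := limitGroup _ _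

noncomputable instance (E : Set ℂ) : Module ℂ (Germs E) := limitModule _ _

/-- the topology of `𝒪(E)`: the inductive limit topology in the category of locally convex
spaces -/
noncomputable instance (E : Set ℂ) : TopologicalSpace (Germs E) :=
  limitTopology _ _ fun V : OpenNbhd E => holTopology V.carrier

end Pool.Agent.Helper18.Germ.Spaces
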