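import Mathlib
import Pool.Agent.Helper18.Germ.Defs
import Pool.Agent.Helper18.Germ.Basic
import Pool.Agent.Helper18.Germ.Spaces

/-!
Comparison of the two descriptions of the spaces of germs (problem MP_d29d91_an).
-/

set_option autoImplicit false

namespace Pool.Agent.Helper18.Germ.Bridge

open Set Topology Metric Filter Pool.Agent.Helper18.Germ

/-! ### the general inductive limit -/

section Limit

open Spaces

variable {ι : Type} [Preorder ι] (G : ι → Type) [∀ i, AddCommGroup (G i)] [∀ i, Module ℂ (G i)]
  (f : ∀ i j, i ≤ j → G i →ₗ[ℂ] G j) (τ : ∀ i, TopologicalSpace (G i))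

theorem lim_group : @IsTopologicalAddGroup (Limit G f) (limitTopology G f τ) _ :=
  topologicalAddGroup_sInf fun _ h => h.1

theorem lim_smul : @ContinuousSMul ℂ (Limit G f) _ _ (limitTopology G f τ) :=
  continuousSMul_sInf fun _ h => h.2.1

theorem lim_lc : @LocallyConvexSpace ℝ (Limit G f) _ _ _ _ (limitTopology G f τ) :=
  LocallyConvexSpace.sInf fun _ h => h.2.2.1

theorem continuous_toLimit (i : ι) :
    @Continuous (G i) (Limit G f) (τ i) (limitTopology G f τ) (toLimit G f i) :=
  continuous_sInf_rng.2 fun _ h => h.2.2.2 i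

theorem lim_continuous_of_comp {Y : Type} [AddCommGroup Y] [Module ℂ Y]
    [t : TopologicalSpace Y] [IsTopologicalAddGroup Y] [ContinuousSMul ℂ Y]
    [LocallyConvexSpace ℝ Y] (L : Limit G f →ₗ[ℂ] Y)
    (h : ∀ i, @Continuous (G i) Y (τ i) t (fun x => L (toLimit G f i x))) :
    @Continuous (Limit G f) Y (limitTopology G f τ) t L := by
  rw [continuous_iff_le_induced]
  have h1 : @IsTopologicalAddGroup (Limit G f) (t.induced L) _ := topologicalAddGroup_induced L
  have h2 : @ContinuousSMul ℂ (Limit G f) _ _ (t.induced L) := continuousSMul_induced L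
  have h3 : @LocallyConvexSpace ℝ (Limit G f) _ _ _ _ (t.induced L) :=
    LocallyConvexSpace.induced (L.restrictScalars ℝ)
  exact sInf_le ⟨h1, h2, h3, fun i => continuous_induced_rng.2 (h i)⟩

variable {G f}

theorem toLimit_map {i j : ι} (h : i ≤ j) (x : G i) : toLimit G f j (f i j h x) =
    toLimit G f i x := by
  classical
  exact Module.DirectLimit.of_f (R := ℂ) (ι := ι) (G := G) (i := i) (j := j) (hij := h) (x := x)

theorem exists_toLimit [Nonempty ι] [IsDirectedOrder ι] (x : Limit G f) :
    ∃ (i : ι) (y : G i), toLimit G f i y = x := by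
  classical
  exact Module.DirectLimit.exists_of (R := ℂ) (ι := ι) (G := G) x

/-- lifting a compatible family of linear maps -/
noncomputable def liftL {Y : Type} [AddCommGroup Y] [Module ℂ Y]
    (g : ∀ i, G i →ₗ[ℂ] Y) (hg : ∀ (i j : ι) (h : i ≤ j) (x : G i), g j (f i j h x) = g i x) :
    Limit G f →ₗ[ℂ] Y := by
  classical
  exact Module.DirectLimit.lift ℂ ι G f g hg

theorem liftL_toLimit {Y : Type} [AddCommGroup Y] [Module ℂ Y]
    (g : ∀ i, G i →ₗ[ℂ] Y) (hg : ∀ (i j : ι) (h : i ≤ j) (x : G i), g j (f i j h x) = g i x)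
    (i : ι) (x : G i) : liftL g hg (toLimit G f i x) = g i x := by
  classical
  exact Module.DirectLimit.lift_of (R := ℂ) (ι := ι) (G := G) g hg x

end Limit

/-! ### the spaces of analytic functions -/

/-- the comparison map `𝒪(V) → 𝒪(V)` -/
noncomputable def toC (V : Set ℂ) : Spaces.Hol V →ₗ[ℂ] Hol V where
  toFun f := ⟨⟨fun z => f.1 z, by
    obtain ⟨F, hF, hF'⟩ := f.2
    have : (fun z : V => f.1 z) = fun z : V => F z := by funext z; exact (hF' z).symm
    rw [this]
    exact hF.continuousOn.comp_continuous continuous_subtype_val fun z => z.2⟩, f.2⟩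
  map_add' _ _ := rfl
  map_smul' _ _ := rfl

/-- the comparison map in the other direction -/
noncomputable def ofC (V : Set ℂ) : Hol V →ₗ[ℂ] Spaces.Hol V where
  toFun f := ⟨fun z => f.1 z, f.2⟩
  map_add' _ _ := rfl
  map_smul' _ _ := rfl

theorem toC_ofC (V : Set ℂ) (f : Hol V) : toC V (ofC V f) = f := rfl

theorem ofC_toC (V : Set ℂ) (f : Spaces.Hol V) : ofC V (toC V f) = f := rfl

theorem inducing_toC (V : Set ℂ) :
    Spaces.holTopology V = TopologicalSpace.induced (toC V) inferInstance := by
  have h1 : IsInducing (fun f : C(V, ℂ) => ContinuousMap.toUniformOnFunIsCompact f) :=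
    ContinuousMap.isUniformEmbedding_toUniformOnFunIsCompact.isInducing
  have h2 : IsInducing (fun f : Hol V => ContinuousMap.toUniformOnFunIsCompact f.1) :=
    h1.comp IsInducing.subtypeVal
  rw [h2.eq_induced, induced_compose]
  rfl

theorem continuous_toC (V : Set ℂ) : @Continuous _ _ (Spaces.holTopology V) _ (toC V) := by
  rw [inducing_toC]
  exact continuous_induced_dom

theorem continuous_ofC (V : Set ℂ) : @Continuous _ _ _ (Spaces.holTopology V) (ofC V) := by
  rw [inducing_toC, continuous_induced_rng]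
  exact continuous_id

/-! ### the spaces of germs -/

/-- open neighbourhoods, first description -/
abbrev toN {E : Set ℂ} (V : Spaces.OpenNbhd E) : OpenNbhd E := ⟨V.carrier, V.isOpen, V.subset⟩

/-- open neighbourhoods, second description -/
abbrev ofN {E : Set ℂ} (V : OpenNbhd E) : Spaces.OpenNbhd E := ⟨V.carrier, V.isOpen, V.subset⟩

/-- the comparison map on germs -/
noncomputable def toG (E : Set ℂ) : Spaces.Germs E →ₗ[ℂ] Germs E :=
  liftL (fun V => (toGerm (toN V)).comp (toC V.carrier)) (fun V W h x =>
    toGerm_res (V := toN V) (W := toN W) h (toC V.carrier x))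

/-- the comparison map on germs, in the other direction -/
noncomputable def ofG (E : Set ℂ) : Germs E →ₗ[ℂ] Spaces.Germs E :=
  liftG (fun V => (Spaces.toLimit (fun V : Spaces.OpenNbhd E => Spaces.Hol V.carrier)
    (fun _ _ h => Spaces.res h) (ofN V)).comp (ofC V.carrier)) (fun V W h x =>
      toLimit_map (G := fun V : Spaces.OpenNbhd E => Spaces.Hol V.carrier)
        (f := fun _ _ h => Spaces.res h) (i := ofN V) (j := ofN W) h (ofC V.carrier x))

theorem toG_toLimit {E : Set ℂ} (V : Spaces.OpenNbhd E) (x : Spaces.Hol V.carrier) :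
    toG E (Spaces.toLimit _ _ V x) = toGerm (toN V) (toC V.carrier x) :=
  liftL_toLimit (G := fun V : Spaces.OpenNbhd E => Spaces.Hol V.carrier)
    (f := fun _ _ h => Spaces.res h) (fun V => (toGerm (toN V)).comp (toC V.carrier)) _ V x

theorem ofG_toGerm {E : Set ℂ} (V : OpenNbhd E) (x : Hol V.carrier) :
    ofG E (toGerm V x) = Spaces.toLimit _ _ (ofN V) (ofC V.carrier x) :=
  liftG_toGerm (fun V => (Spaces.toLimit (fun V : Spaces.OpenNbhd E => Spaces.Hol V.carrier)
    (fun _ _ h => Spaces.res h) (ofN V)).comp (ofC V.carrier)) _ V x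

theorem continuous_toG (E : Set ℂ) : Continuous (toG E) := by
  refine lim_continuous_of_comp _ _ (fun V : Spaces.OpenNbhd E => Spaces.holTopology V.carrier)
    (toG E) fun V => ?_
  have key : @Continuous _ _ (Spaces.holTopology V.carrier) _
      (fun x => toGerm (toN V) (toC V.carrier x)) :=
    @Continuous.comp _ _ _ (Spaces.holTopology V.carrier) _ _ _ _
      (continuous_toGerm (toN V)) (continuous_toC V.carrier)
  exact (@continuous_congr _ _ (Spaces.holTopology V.carrier) _ _ _
    (fun x => toG_toLimit V x)).2 key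

theorem continuous_ofG (E : Set ℂ) : Continuous (ofG E) := by
  have i1 : IsTopologicalAddGroup (Spaces.Germs E) := lim_group _ _ _
  have i2 : ContinuousSMul ℂ (Spaces.Germs E) := lim_smul _ _ _
  have i3 : LocallyConvexSpace ℝ (Spaces.Germs E) := lim_lc _ _ _
  refine continuous_of_comp _ fun V => ?_
  have : (fun x => ofG E (toGerm V x)) =
      fun x => Spaces.toLimit _ _ (ofN V) (ofC V.carrier x) := by
    funext x
    exact ofG_toGerm V x
  rw [this]
  exact @Continuous.comp _ _ _ _ (Spaces.holTopology V.carrier) _ _ _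
    (continuous_toLimit _ _ (fun V : Spaces.OpenNbhd E => Spaces.holTopology V.carrier) (ofN V))
    (continuous_ofC V.carrier)

instance (E : Set ℂ) : Nonempty (Spaces.OpenNbhd E) := ⟨⟨univ, isOpen_univ, subset_univ _⟩⟩

instance (E : Set ℂ) : IsDirectedOrder (Spaces.OpenNbhd E) where
  directed V W := ⟨⟨V.carrier ∩ W.carrier, V.isOpen.inter W.isOpen,
    subset_inter V.subset W.subset⟩, inter_subset_left, inter_subset_right⟩

/-- the two descriptions of `𝒪(E)` agree -/
noncomputable def germEquiv (E : Set ℂ) : Spaces.Germs E ≃L[ℂ] Germs E where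
  toLinearMap := toG E
  invFun := ofG E
  left_inv x := by
    obtain ⟨V, y, rfl⟩ := exists_toLimit x
    change ofG E (toG E _) = _
    rw [toG_toLimit]
    exact ofG_toGerm (toN V) (toC V.carrier y)
  right_inv x := by
    obtain ⟨V, y, rfl⟩ := exists_toGerm x
    change toG E (ofG E _) = _
    rw [ofG_toGerm]
    exact toG_toLimit (ofN V) (ofC V.carrier y)
  continuous_toFun := continuous_toG E
  continuous_invFun := continuous_ofG E

end Pool.Agent.Helper18.Germ.Bridge
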