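import Mathlib
import Pool.Agent.Helper18.Germ.Basic

/-!
Continuous functionals on `Germs E` and a Baire category lemma (problem MP_d29d91_an).
-/

set_option autoImplicit false

namespace Pool.Agent.Helper18.Germ

open Set Topology Metric Filter

theorem compact_sub {V K : Set ℂ} (hK : IsCompact K) (h : K ⊆ V) :
    IsCompact ((fun z : V => (z : ℂ)) ⁻¹' K) := by
  rw [Subtype.isCompact_iff]
  have : (Subtype.val '' ((fun z : V => (z : ℂ)) ⁻¹' K)) = K := by
    rw [Subtype.image_preimage_coe, inter_eq_right.2 h]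
  rw [this]
  exact hK

/-- Taylor coefficients as linear functionals -/
noncomputable def coefV {E : Set ℂ} {b : ℂ} (hb : b ∈ E) (j : ℕ) (V : OpenNbhd E) :
    Hol V.carrier →ₗ[ℂ] ℂ where
  toFun f := cf (ex f) b j
  map_add' f g := by
    rw [← cf_add (ex_analytic V.isOpen f b (V.subset hb)) (ex_analytic V.isOpen g b (V.subset hb))]
    refine cf_congr ?_ j
    filter_upwards [V.isOpen.mem_nhds (V.subset hb)] with z hz using ex_add f g hz
  map_smul' c f := by
    rw [RingHom.id_apply, smul_eq_mul, ← cf_smul (ex_analytic V.isOpen f b (V.subset hb))]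
    refine cf_congr ?_ j
    filter_upwards [V.isOpen.mem_nhds (V.subset hb)] with z hz using ex_smul c f hz

theorem coefV_apply {E : Set ℂ} {b : ℂ} (hb : b ∈ E) (j : ℕ) (V : OpenNbhd E)
    (f : Hol V.carrier) : coefV hb j V f = cf (ex f) b j := rfl

theorem continuous_coefV {E : Set ℂ} {b : ℂ} (hb : b ∈ E) (j : ℕ) (V : OpenNbhd E) :
    Continuous (coefV hb j V) := by
  obtain ⟨r, hr, hsub⟩ := Metric.nhds_basis_closedBall.mem_iff.1
    (V.isOpen.mem_nhds (V.subset hb))
  refine continuous_of_bound (coefV hb j V) (compact_sub (isCompact_closedBall b r) hsub)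
    (C := 1 / r ^ j) (by positivity) fun f M hM hM0 => ?_
  rw [coefV_apply]
  have h1 := cf_bound (F := ex f) (M := M) hr ((ex_analytic V.isOpen f).mono hsub)
    (fun z hz => by rw [ex_apply f (hsub hz)]; exact hM ⟨z, hsub hz⟩ hz) j
  refine h1.trans (le_of_eq ?_)
  ring

/-- Taylor coefficients of germs -/
noncomputable def coefG {E : Set ℂ} {b : ℂ} (hb : b ∈ E) (j : ℕ) : Germs E →ₗ[ℂ] ℂ :=
  liftG (coefV hb j) (by
    intro V W h f
    rw [coefV_apply, coefV_apply]
    refine cf_congr ?_ j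
    filter_upwards [W.isOpen.mem_nhds (W.subset hb)] with z hz using ex_res h f hz)

theorem coefG_toGerm {E : Set ℂ} {b : ℂ} (hb : b ∈ E) (j : ℕ) (V : OpenNbhd E)
    (f : Hol V.carrier) : coefG hb j (toGerm V f) = cf (ex f) b j := by
  unfold coefG
  rw [liftG_toGerm, coefV_apply]

theorem continuous_coefG {E : Set ℂ} {b : ℂ} (hb : b ∈ E) (j : ℕ) :
    Continuous (coefG hb j) := by
  refine continuous_of_comp _ fun V => ?_
  have : (fun f => coefG hb j (toGerm V f)) = fun f => coefV hb j V f := by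
    funext f
    rw [coefG_toGerm, coefV_apply]
  rw [this]
  exact continuous_coefV hb j V

/-- restriction of analytic functions to a subset -/
noncomputable def resV {V D : Set ℂ} (hD : D ⊆ V) : Hol V →ₗ[ℂ] C(D, ℂ) where
  toFun f := f.1.comp ⟨inclusion hD, continuous_inclusion hD⟩
  map_add' _ _ := rfl
  map_smul' _ _ := rfl

theorem resV_apply {V D : Set ℂ} (hD : D ⊆ V) (f : Hol V) (z : D) :
    resV hD f z = ex f z := by
  rw [ex_apply f (hD z.2)]
  rfl

theorem continuous_resV {V D : Set ℂ} (hD : D ⊆ V) : Continuous (fun f => resV hD f) := by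
  have h1 : Continuous (fun f : Hol V => (f.1 : C(V, ℂ)).comp
      (⟨inclusion hD, continuous_inclusion hD⟩ : C(D, V))) :=
    (ContinuousMap.continuous_precomp _).comp continuous_subtype_val
  exact h1

/-- restriction of germs to a subset -/
noncomputable def resG {E D : Set ℂ} (hD : D ⊆ E) : Germs E →ₗ[ℂ] C(D, ℂ) :=
  liftG (fun V : OpenNbhd E => resV (hD.trans V.subset)) (by
    intro V W h f
    ext z
    rw [resV_apply, resV_apply, ex_res h f (W.subset (hD z.2))])

theorem resG_toGerm {E D : Set ℂ} (hD : D ⊆ E) (V : OpenNbhd E) (f : Hol V.carrier) (z : D) :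
    resG hD (toGerm V f) z = ex f z := by
  unfold resG
  rw [liftG_toGerm, resV_apply]

theorem continuous_resG {E D : Set ℂ} (hD : D ⊆ E) : Continuous (resG hD) := by
  refine continuous_of_comp _ fun V => ?_
  have : (fun f => resG hD (toGerm V f)) = fun f => resV (hD.trans V.subset) f := by
    funext f
    unfold resG
    rw [liftG_toGerm]
  rw [this]
  exact continuous_resV _

/-- the coefficients of a germ on `E` at the points of a compact set grow at most
exponentially, uniformly -/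
theorem exists_growth {E β : Set ℂ} (hβ : IsCompact β) (hβE : β ⊆ E) (x : Germs E) :
    ∃ m : ℕ, ∀ (b : ℂ) (hb : b ∈ β) (j : ℕ), ‖coefG (hβE hb) j x‖ ≤ (m : ℝ) ^ (j + 1) := by
  obtain ⟨V, f, rfl⟩ := exists_toGerm x
  obtain ⟨r, hr, hsub⟩ := hβ.exists_cthickening_subset_open V.isOpen (hβE.trans V.subset)
  have hcomp : IsCompact (cthickening r β) := hβ.cthickening
  have hcont : ContinuousOn (ex f) (cthickening r β) :=
    (ex_analytic V.isOpen f).continuousOn.mono hsub
  obtain ⟨M, hM⟩ := hcomp.exists_bound_of_continuousOn hcont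
  obtain ⟨m, hm⟩ := exists_nat_ge (max M (1 / r))
  refine ⟨m, fun b hb j => ?_⟩
  rw [coefG_toGerm]
  have hball : closedBall b r ⊆ cthickening r β := closedBall_subset_cthickening hb r
  have h1 := cf_bound (F := ex f) (M := M) hr ((ex_analytic V.isOpen f).mono (hball.trans hsub))
    (fun z hz => hM z (hball hz)) j
  refine h1.trans ?_
  have h2 : M ≤ m := (le_max_left _ _).trans hm
  have h3 : 1 / r ≤ m := (le_max_right _ _).trans hm
  have h4 : 0 ≤ M := (norm_nonneg _).trans (hM b (hball (mem_closedBall_self hr.le)))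
  calc M / r ^ j = M * (1 / r) ^ j := by rw [div_pow, one_pow]; ring
    _ ≤ m * (m : ℝ) ^ j := by gcongr
    _ = (m : ℝ) ^ (j + 1) := by ring

/-- **Baire category lemma.** -/
theorem baire_lemma {E β U : Set ℂ} (hU : IsOpen U) (hβ : IsCompact β) (hβE : β ⊆ E)
    (u : Hol U →ₗ[ℂ] Germs E) (hu : Continuous u) :
    ∃ (m : ℕ) (K : Set U) (C : ℝ), 1 ≤ m ∧ IsCompact K ∧ 0 < C ∧
      ∀ (f : Hol U) (M : ℝ), 0 < M → (∀ z ∈ K, ‖f.1 z‖ ≤ M) →
        ∀ (b : ℂ) (hb : b ∈ β) (j : ℕ), ‖coefG (hβE hb) j (u f)‖ ≤ C * M * (m : ℝ) ^ (j + 1) := by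
  have hB : BaireSpace (Hol U) := baire_hol hU
  set X : ℕ → Set (Hol U) := fun m =>
    {f | ∀ (b : ℂ) (hb : b ∈ β) (j : ℕ), ‖coefG (hβE hb) j (u f)‖ ≤ (m : ℝ) ^ (j + 1)} with hX
  have hclosed : ∀ m, IsClosed (X m) := by
    intro m
    simp only [hX, ofPred_forall]
    refine isClosed_iInter fun b => isClosed_iInter fun hb => isClosed_iInter fun j => ?_
    exact isClosed_le ((continuous_coefG (hβE hb) j).comp hu).norm continuous_const
  have hunion : ⋃ m, X m = univ := by
    rw [eq_univ_iff_forall]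
    intro f
    obtain ⟨m, hm⟩ := exists_growth hβ hβE (u f)
    exact mem_iUnion.2 ⟨m, hm⟩
  obtain ⟨m, f0, hf0⟩ := nonempty_interior_of_iUnion_of_closed hclosed hunion
  have h0 : (fun h : Hol U => f0 + h) ⁻¹' (interior (X m)) ∈ 𝓝 (0 : Hol U) := by
    have hc : Continuous (fun h : Hol U => f0 + h) := by
      rw [continuous_induced_rng]
      change Continuous (fun h : Hol U => (f0.1 : C(U, ℂ)) + h.1)
      exact continuous_const.add continuous_subtype_val
    apply hc.continuousAt.preimage_mem_nhds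
    rw [add_zero]
    exact isOpen_interior.mem_nhds hf0
  obtain ⟨K, hK, δ, hδ, hsub⟩ := exists_nhds_zero h0
  refine ⟨m + 1, K, 4 / δ, by omega, hK, by positivity, fun f M hM hf b hb j => ?_⟩
  set t : ℝ := δ / (2 * M) with ht
  have ht0 : 0 < t := by positivity
  have h1 : (t : ℂ) • f ∈ (fun h : Hol U => f0 + h) ⁻¹' (interior (X m)) := by
    apply hsub
    intro w hw
    have h4 : (((t : ℂ) • f : Hol U).1 w) = (t : ℂ) * f.1 w := rfl
    rw [h4, norm_mul, Complex.norm_real, Real.norm_of_nonneg ht0.le]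
    calc t * ‖f.1 w‖ ≤ t * M := by gcongr; exact hf w hw
      _ = δ / 2 := by rw [ht]; field_simp
      _ < δ := by linarith
  have h2 := interior_subset h1 b hb j
  have h3 := interior_subset hf0 b hb j
  rw [map_add, map_add] at h2
  have h4 : ‖coefG (hβE hb) j (u ((t : ℂ) • f))‖ ≤ 2 * (m : ℝ) ^ (j + 1) := by
    calc ‖coefG (hβE hb) j (u ((t : ℂ) • f))‖ =
        ‖(coefG (hβE hb) j (u f0) + coefG (hβE hb) j (u ((t : ℂ) • f))) -
          coefG (hβE hb) j (u f0)‖ := by congr 1; ring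
      _ ≤ ‖coefG (hβE hb) j (u f0) + coefG (hβE hb) j (u ((t : ℂ) • f))‖ +
          ‖coefG (hβE hb) j (u f0)‖ := norm_sub_le _ _
      _ ≤ 2 * (m : ℝ) ^ (j + 1) := by linarith
  rw [map_smul, map_smul, smul_eq_mul, norm_mul, Complex.norm_real,
    Real.norm_of_nonneg ht0.le] at h4
  have h5 : ‖coefG (hβE hb) j (u f)‖ ≤ 2 * (m : ℝ) ^ (j + 1) / t := by
    rw [le_div_iff₀ ht0]
    linarith
  have h6 : (m : ℝ) ^ (j + 1) ≤ ((m + 1 : ℕ) : ℝ) ^ (j + 1) := by
    gcongr
    simp
  refine h5.trans ?_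
  calc 2 * (m : ℝ) ^ (j + 1) / t = 4 / δ * M * (m : ℝ) ^ (j + 1) := by
        rw [ht]
        field_simp
        ring
    _ ≤ 4 / δ * M * ((m + 1 : ℕ) : ℝ) ^ (j + 1) := by gcongr

end Pool.Agent.Helper18.Germ
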