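import Mathlib
import Pool.Agent.Helper18.Germ.Coef

/-!
Germs on the disc plus a boundary point: extension to a fixed neighbourhood
(problem MP_d29d91_an).
-/

set_option autoImplicit false

namespace Pool.Agent.Helper18.Germ

open Set Topology Metric Filter

/-- the set `𝔻 ∪ {1}` -/
def E1 : Set ℂ := ball 0 1 ∪ {1}

theorem one_mem : (1 : ℂ) ∈ E1 := Or.inr rfl

theorem ball_sub : ball (0 : ℂ) 1 ⊆ E1 := subset_union_left

/-- the neighbourhood `𝔻 ∪ B(1, δ)` of `𝔻 ∪ {1}` -/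
def Wd {δ : ℝ} (hδ : 0 < δ) : OpenNbhd E1 where
  carrier := ball 0 1 ∪ ball 1 δ
  isOpen := isOpen_ball.union isOpen_ball
  subset := by
    refine union_subset_union_right _ ?_
    rw [singleton_subset_iff]
    exact mem_ball_self hδ

theorem geom_summable {c : ℕ → ℂ} {C δ : ℝ} {n : ℕ} (hc : ∀ j, ‖c j‖ ≤ C * (n : ℝ) ^ (j + 1))
    (hδ : 0 < δ) (hn : (n : ℝ) * δ < 1) :
    Summable (fun j : ℕ => C * n * ((n : ℝ) * δ) ^ j) ∧
    ∀ j, ∀ z ∈ ball (1 : ℂ) δ, ‖c j * (z - 1) ^ j‖ ≤ C * n * ((n : ℝ) * δ) ^ j := by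
  constructor
  · exact (summable_geometric_of_lt_one (by positivity) hn).mul_left _
  · intro j z hz
    rw [mem_ball, dist_eq_norm] at hz
    rw [norm_mul, norm_pow]
    have h0 : 0 ≤ C * (n : ℝ) ^ (j + 1) := (norm_nonneg _).trans (hc j)
    calc ‖c j‖ * ‖z - 1‖ ^ j ≤ (C * (n : ℝ) ^ (j + 1)) * δ ^ j := by
          gcongr
          exact hc j
      _ = C * n * ((n : ℝ) * δ) ^ j := by rw [mul_pow]; ring

theorem glue (x : Germs E1) {C δ : ℝ} {n : ℕ}
    (hx : ∀ j, ‖coefG one_mem j x‖ ≤ C * (n : ℝ) ^ (j + 1)) (hδ : 0 < δ)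
    (hn : (n : ℝ) * δ < 1) :
    ∃ H : Hol (Wd hδ).carrier, toGerm (Wd hδ) H = x ∧
      (∀ z : ball (0 : ℂ) 1, ex H z = resG ball_sub x z) ∧
      ∀ z ∈ ball (1 : ℂ) δ, HasSum (fun j => coefG one_mem j x * (z - 1) ^ j) (ex H z) := by
  classical
  obtain ⟨V, f, rfl⟩ := exists_toGerm x
  set c : ℕ → ℂ := fun j => coefG one_mem j (toGerm V f) with hc
  have hcf : ∀ j, c j = cf (ex f) 1 j := fun j => coefG_toGerm one_mem j V f
  obtain ⟨hsum, hbd⟩ := geom_summable (c := c) hx hδ hn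
  set S : ℂ → ℂ := fun z => ∑' j, c j * (z - 1) ^ j with hS
  have hSd : DifferentiableOn ℂ S (ball 1 δ) := by
    refine Complex.differentiableOn_tsum_of_summable_norm hsum (fun j => ?_) isOpen_ball hbd
    exact (((differentiable_id.sub_const 1).pow j).const_mul (c j)).differentiableOn
  have hSa : AnalyticOnNhd ℂ S (ball 1 δ) := hSd.analyticOnNhd isOpen_ball
  have hSs : ∀ z ∈ ball (1 : ℂ) δ, HasSum (fun j => c j * (z - 1) ^ j) (S z) := fun z hz =>
    (Summable.of_norm_bounded hsum (fun j => hbd j z hz)).hasSum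
  have hfa := ex_analytic V.isOpen f
  obtain ⟨r0, hr0, hr0V⟩ := Metric.mem_nhds_iff.1 (V.isOpen.mem_nhds (V.subset one_mem))
  set r := min r0 (min δ 1) with hr
  have hrpos : 0 < r := lt_min hr0 (lt_min hδ one_pos)
  have hrV : ball (1 : ℂ) r ⊆ V.carrier := (ball_subset_ball (min_le_left _ _)).trans hr0V
  have hrδ : r ≤ δ := (min_le_right _ _).trans (min_le_left _ _)
  have hr1 : r ≤ 1 := (min_le_right _ _).trans (min_le_right _ _)
  have hDV : ball (0 : ℂ) 1 ⊆ V.carrier := ball_sub.trans V.subset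
  have hSf : ∀ z ∈ ball (1 : ℂ) r, S z = ex f z := by
    intro z hz
    have h1 := cf_hasSum (hfa.mono hrV) hz
    have h2 := hSs z (ball_subset_ball hrδ hz)
    simp only [hcf] at h2
    exact h2.unique h1
  have hSf2 : EqOn S (ex f) (ball 1 δ ∩ ball 0 1) := by
    have hconv : IsPreconnected (ball (1 : ℂ) δ ∩ ball 0 1) :=
      ((convex_ball _ _).inter (convex_ball _ _)).isPreconnected
    set z0 : ℂ := ((1 - r / 2 : ℝ) : ℂ) with hz0
    have hz1 : z0 ∈ ball (1 : ℂ) r := by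
      rw [mem_ball, dist_eq_norm, hz0]
      have : (((1 - r / 2 : ℝ) : ℂ) - 1) = ((-(r / 2) : ℝ) : ℂ) := by push_cast; ring
      rw [this, Complex.norm_real, norm_neg, Real.norm_of_nonneg (by positivity)]
      linarith
    have hz2 : z0 ∈ ball (0 : ℂ) 1 := by
      rw [mem_ball_zero_iff, hz0, Complex.norm_real, Real.norm_of_nonneg (by linarith)]
      linarith
    refine AnalyticOnNhd.eqOn_of_preconnected_of_eventuallyEq (hSa.mono inter_subset_left)
      (hfa.mono (inter_subset_right.trans hDV)) hconv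
      ⟨ball_subset_ball hrδ hz1, hz2⟩ ?_
    filter_upwards [isOpen_ball.mem_nhds hz1] with w hw using hSf w hw
  set Hf : ℂ → ℂ := fun z => if z ∈ ball (0 : ℂ) 1 then ex f z else S z with hHf
  have hH1 : ∀ z ∈ ball (0 : ℂ) 1, Hf z = ex f z := fun z hz => by rw [hHf]; exact if_pos hz
  have hH2 : ∀ z ∈ ball (1 : ℂ) δ, Hf z = S z := fun z hz => by
    by_cases h : z ∈ ball (0 : ℂ) 1
    · rw [hH1 z h, hSf2 ⟨hz, h⟩]
    · rw [hHf]; exact if_neg h
  have hHa : AnalyticOnNhd ℂ Hf (Wd hδ).carrier := by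
    rintro z (hz | hz)
    · refine (hfa z (hDV hz)).congr ?_
      filter_upwards [isOpen_ball.mem_nhds hz] with w hw using (hH1 w hw).symm
    · refine (hSa z hz).congr ?_
      filter_upwards [isOpen_ball.mem_nhds hz] with w hw using (hH2 w hw).symm
  refine ⟨mkHol _ Hf hHa, ?_, ?_, ?_⟩
  · have hsub1 : (Wd hrpos).carrier ⊆ (Wd hδ).carrier :=
      union_subset_union_right _ (ball_subset_ball hrδ)
    have hsub2 : (Wd hrpos).carrier ⊆ V.carrier := union_subset hDV hrV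
    rw [← toGerm_res (V := Wd hδ) (W := Wd hrpos) hsub1, ← toGerm_res (V := V) (W := Wd hrpos) hsub2]
    congr 1
    apply hol_ext
    intro z hz
    rw [ex_res _ _ hz, ex_res _ _ hz, ex_mkHol _ _ (hsub1 hz)]
    rcases hz with hz | hz
    · exact hH1 z hz
    · rw [hH2 z (ball_subset_ball hrδ hz), hSf z hz]
  · intro z
    rw [ex_mkHol _ _ (Or.inl z.2), resG_toGerm, hH1 z z.2]
  · intro z hz
    rw [ex_mkHol _ _ (Or.inr hz), hH2 z hz]
    exact hSs z hz

end Pool.Agent.Helper18.Germ
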