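import Mathlib
import Pool.Agent.Helper18.Germ.Glue

/-!
Polynomials, the map `g ↦ g(z^N)` and lower estimates on an arc (problem MP_d29d91_an).
-/

set_option autoImplicit false

namespace Pool.Agent.Helper18.Germ

open Set Topology Metric Filter

/-- the closed arc `{e^{iθ} : a ≤ θ ≤ b}` -/
def arc (a b : ℝ) : Set ℂ := (fun θ : ℝ => Complex.exp (θ * Complex.I)) '' Icc a b

theorem isCompact_arc (a b : ℝ) : IsCompact (arc a b) :=
  isCompact_Icc.image (by fun_prop)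

theorem norm_of_mem_arc {a b : ℝ} {z : ℂ} (h : z ∈ arc a b) : ‖z‖ = 1 := by
  obtain ⟨θ, _, rfl⟩ := h
  exact Complex.norm_exp_ofReal_mul_I θ

/-- the set `𝔻 ∪ β` for the arc `β` -/
def E2 (a b : ℝ) : Set ℂ := ball 0 1 ∪ arc a b

theorem arc_sub (a b : ℝ) : arc a b ⊆ E2 a b := subset_union_right

theorem norm_le_of_mem {a b : ℝ} {z : ℂ} (h : z ∈ E2 a b) : ‖z‖ ≤ 1 := by
  rcases h with h | h
  · rw [mem_ball_zero_iff] at h
    exact h.le
  · exact (norm_of_mem_arc h).le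

/-- the neighbourhood `{z : |z^N| < r}` of `𝔻 ∪ β` -/
def Vr (a b : ℝ) (N : ℕ) {r : ℝ} (hr : 1 < r) : OpenNbhd (E2 a b) where
  carrier := (fun z : ℂ => z ^ N) ⁻¹' ball 0 r
  isOpen := isOpen_ball.preimage (continuous_pow N)
  subset := by
    intro z hz
    rw [mem_preimage, mem_ball_zero_iff, norm_pow]
    exact (pow_le_one₀ (norm_nonneg z) (norm_le_of_mem hz)).trans_lt hr

/-- the map `f ↦ f(z^N)` -/
noncomputable def compN (a b : ℝ) (N : ℕ) {r : ℝ} (hr : 1 < r) :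
    Hol (ball (0 : ℂ) r) →ₗ[ℂ] Hol (Vr a b N hr).carrier where
  toFun f := ⟨f.1.comp ⟨fun z => ⟨z.1 ^ N, z.2⟩,
    (continuous_subtype_val.pow N).subtype_mk _⟩, by
    obtain ⟨F, hF, hF'⟩ := f.2
    refine ⟨fun z => F (z ^ N), ?_, fun z => hF' ⟨z.1 ^ N, z.2⟩⟩
    intro z hz
    have h1 : AnalyticAt ℂ (fun z : ℂ => z ^ N) z := analyticAt_id.pow N
    exact AnalyticAt.fun_comp (g := F) (f := fun z : ℂ => z ^ N) (hF (z ^ N) hz) h1⟩
  map_add' _ _ := rfl
  map_smul' _ _ := rfl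

theorem ex_compN {a b : ℝ} {N : ℕ} {r : ℝ} (hr : 1 < r) (f : Hol (ball (0 : ℂ) r)) {z : ℂ}
    (hz : z ∈ (Vr a b N hr).carrier) : ex (compN a b N hr f) z = ex f (z ^ N) := by
  have hz' : z ^ N ∈ ball (0 : ℂ) r := hz
  rw [ex_apply _ hz, ex_apply f hz']
  rfl

theorem continuous_compN (a b : ℝ) (N : ℕ) {r : ℝ} (hr : 1 < r) :
    Continuous (fun f => compN a b N hr f) := by
  rw [continuous_induced_rng]
  have h1 : Continuous (fun f : Hol (ball (0 : ℂ) r) => (f.1 : C(ball (0 : ℂ) r, ℂ)).comp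
      (⟨fun z => ⟨z.1 ^ N, z.2⟩, (continuous_subtype_val.pow N).subtype_mk _⟩ :
        C((Vr a b N hr).carrier, ball (0 : ℂ) r))) :=
    (ContinuousMap.continuous_precomp _).comp continuous_subtype_val
  exact h1

/-- the composite `𝒪(B(0, r)) → 𝒪(𝔻 ∪ β)` -/
noncomputable def Tr (a b : ℝ) (N : ℕ) {r : ℝ} (hr : 1 < r) :
    Hol (ball (0 : ℂ) r) →ₗ[ℂ] Germs (E2 a b) :=
  (toGerm (Vr a b N hr)).comp (compN a b N hr)

theorem continuous_Tr (a b : ℝ) (N : ℕ) {r : ℝ} (hr : 1 < r) :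
    Continuous (fun f => Tr a b N hr f) :=
  (continuous_toGerm (Vr a b N hr)).comp (continuous_compN a b N hr)

/-- the whole plane as a neighbourhood -/
def Un (E : Set ℂ) : OpenNbhd E := ⟨univ, isOpen_univ, subset_univ _⟩

theorem pow_analytic (k : ℕ) (V : Set ℂ) : AnalyticOnNhd ℂ (fun z : ℂ => z ^ k) V :=
  fun _ _ => analyticAt_id.pow k

theorem powN_analytic (N k : ℕ) (V : Set ℂ) : AnalyticOnNhd ℂ (fun z : ℂ => (z ^ N) ^ k) V :=
  fun _ _ => (analyticAt_id.pow N).pow k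

/-- `z ↦ z^(Nk)` as an entire function -/
noncomputable def uN (E : Set ℂ) (N k : ℕ) : Hol (Un E).carrier :=
  mkHol _ _ (powN_analytic N k (Un E).carrier)

theorem ex_uN (E : Set ℂ) (N k : ℕ) (z : ℂ) : ex (uN E N k) z = (z ^ N) ^ k :=
  ex_mkHol _ _ (mem_univ z)

/-- polynomials as elements of `𝒪(B(0, r))` -/
noncomputable def Q (r : ℝ) (J : ℕ) {L : ℕ} (c : Fin L → ℂ) : Hol (ball (0 : ℂ) r) :=
  ∑ i, c i • mkHol _ _ (pow_analytic (J + i) (ball (0 : ℂ) r))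

/-- the germ of `p(z^N)` -/
noncomputable def P (a b : ℝ) (N J L : ℕ) : (Fin L → ℂ) →ₗ[ℂ] Germs (E2 a b) :=
  ∑ i : Fin L, (LinearMap.proj i : (Fin L → ℂ) →ₗ[ℂ] ℂ).smulRight
    (toGerm (Un (E2 a b)) (uN (E2 a b) N (J + i)))

theorem P_apply (a b : ℝ) (N J L : ℕ) (c : Fin L → ℂ) : P a b N J L c =
    ∑ i : Fin L, c i • toGerm (Un (E2 a b)) (uN (E2 a b) N (J + i)) := by
  unfold P
  rw [LinearMap.sum_apply]
  rfl

theorem Tr_Q (a b : ℝ) (N J L : ℕ) {r : ℝ} (hr : 1 < r) (c : Fin L → ℂ) :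
    Tr a b N hr (Q r J c) = P a b N J L c := by
  rw [P_apply]
  unfold Q Tr
  rw [map_sum]
  refine Finset.sum_congr rfl fun i _ => ?_
  rw [map_smul]
  congr 1
  have hsub : (Vr a b N hr).carrier ⊆ (Un (E2 a b)).carrier := subset_univ _
  have h1 : compN a b N hr (mkHol _ _ (pow_analytic (J + i) (ball (0 : ℂ) r))) =
      res hsub (uN (E2 a b) N (J + i)) := by
    apply hol_ext
    intro z hz
    have hz' : z ^ N ∈ ball (0 : ℂ) r := hz
    rw [ex_compN hr _ hz, ex_res hsub _ hz, ex_uN, ex_mkHol _ _ hz']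
  rw [LinearMap.comp_apply, h1, toGerm_res]

theorem ex_sum {V : Set ℂ} {ι : Type} (s : Finset ι) (f : ι → Hol V) {z : ℂ} (hz : z ∈ V) :
    ex (∑ i ∈ s, f i) z = ∑ i ∈ s, ex (f i) z := by
  classical
  induction s using Finset.induction_on with
  | empty => rw [Finset.sum_empty, Finset.sum_empty, ex_apply _ hz]; rfl
  | insert i s hi ih => rw [Finset.sum_insert hi, Finset.sum_insert hi, ex_add _ _ hz, ih]

theorem Q_bound {r : ℝ} (J : ℕ) {L : ℕ} (c : Fin L → ℂ) (z : ball (0 : ℂ) r) :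
    ‖(Q r J c).1 z‖ ≤ ∑ i, ‖c i‖ * r ^ (J + (i : ℕ)) := by
  have h1 : (Q r J c).1 z = ∑ i, c i * (z : ℂ) ^ (J + (i : ℕ)) := by
    rw [← ex_apply (Q r J c) z.2]
    unfold Q
    rw [ex_sum _ _ z.2]
    refine Finset.sum_congr rfl fun i _ => ?_
    rw [ex_smul _ _ z.2, ex_mkHol _ _ z.2]
  rw [h1]
  refine (norm_sum_le _ _).trans (Finset.sum_le_sum fun i _ => ?_)
  rw [norm_mul, norm_pow]
  have hz := z.2
  rw [mem_ball_zero_iff] at hz
  gcongr

theorem coefG_P {a b : ℝ} (N J L : ℕ) (c : Fin L → ℂ) {ζ : ℂ} (hζ : ζ ∈ E2 a b) (j : ℕ) :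
    coefG hζ j (P a b N J L c) = cf (fun z => ∑ i : Fin L, c i * (z ^ N) ^ (J + (i : ℕ))) ζ j := by
  have h1 : P a b N J L c = toGerm (Un (E2 a b))
      (∑ i : Fin L, c i • uN (E2 a b) N (J + i)) := by
    rw [P_apply, map_sum]
    exact Finset.sum_congr rfl fun i _ => (map_smul _ _ _).symm
  rw [h1, coefG_toGerm]
  refine cf_congr (Eventually.of_forall fun z => ?_) j
  have hz : z ∈ (Un (E2 a b)).carrier := mem_univ z
  rw [ex_sum _ _ hz]
  refine Finset.sum_congr rfl fun i _ => ?_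
  rw [ex_smul _ _ hz, ex_uN]

/-- an arc of length at least `2π/N` covers the circle under `z ↦ z^N` -/
theorem exists_root {a b : ℝ} {N : ℕ} (hN : 1 ≤ N) (hab : 2 * Real.pi ≤ N * (b - a)) (φ : ℝ) :
    ∃ ζ ∈ arc a b, ζ ^ N = Complex.exp (φ * Complex.I) := by
  have hN' : (0 : ℝ) < N := by exact_mod_cast hN
  have hpi := Real.pi_pos
  set k : ℤ := ⌈(N * a - φ) / (2 * Real.pi)⌉ with hk
  have h1 : (N * a - φ) / (2 * Real.pi) ≤ k := Int.le_ceil _
  have h2 : (k : ℝ) < (N * a - φ) / (2 * Real.pi) + 1 := Int.ceil_lt_add_one _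
  rw [div_le_iff₀ (by positivity)] at h1
  have h3 : (k : ℝ) * (2 * Real.pi) < (N * a - φ) + 2 * Real.pi := by
    have := mul_lt_mul_of_pos_right h2 (show (0 : ℝ) < 2 * Real.pi by positivity)
    rwa [add_mul, div_mul_cancel₀ _ (by positivity), one_mul] at this
  refine ⟨Complex.exp ((((φ + k * (2 * Real.pi)) / N : ℝ) : ℂ) * Complex.I),
    ⟨(φ + k * (2 * Real.pi)) / N, ⟨?_, ?_⟩, rfl⟩, ?_⟩
  · rw [le_div_iff₀ hN']
    linarith
  · rw [div_le_iff₀ hN']
    nlinarith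
  · rw [← Complex.exp_nat_mul]
    have h4 : (N : ℂ) * ((((φ + k * (2 * Real.pi)) / N : ℝ) : ℂ) * Complex.I) =
        φ * Complex.I + k * (2 * Real.pi * Complex.I) := by
      have : (N : ℂ) ≠ 0 := by exact_mod_cast hN'.ne'
      push_cast
      field_simp
    rw [h4, Complex.exp_add, Complex.exp_int_mul_two_pi_mul_I, mul_one]

theorem cf_bound_sphere {F : ℂ → ℂ} {b : ℂ} {r M : ℝ} (hr : 0 < r)
    (hF : AnalyticOnNhd ℂ F univ) (hM : ∀ z ∈ sphere b r, ‖F z‖ ≤ M) (j : ℕ) :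
    ‖cf F b j‖ ≤ M / r ^ j := by
  have h1 := Complex.norm_iteratedDeriv_le_of_forall_mem_sphere_norm_le j hr
    (f := F) (c := b) (C := M)
    (DifferentiableOn.diffContOnCl (hF.mono (subset_univ _)).differentiableOn) hM
  unfold cf
  rw [norm_div, Complex.norm_natCast, div_le_iff₀ (by positivity)]
  refine h1.trans (le_of_eq ?_)
  ring

theorem cf_poly (J : ℕ) {L : ℕ} (c : Fin L → ℂ) (i : Fin L) :
    cf (fun z => ∑ i : Fin L, c i * z ^ (J + (i : ℕ))) 0 (J + i) = c i := by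
  unfold cf
  rw [iteratedDeriv_fun_sum fun i _ => (contDiffAt_const.mul (contDiffAt_id.pow _))]
  have h1 : ∀ k : Fin L, iteratedDeriv (J + (i : ℕ)) (fun z => c k * z ^ (J + (k : ℕ))) (0 : ℂ) =
      if k = i then c i * ((J + (i : ℕ)).factorial : ℂ) else 0 := by
    intro k
    rw [iteratedDeriv_const_mul_field, iteratedDeriv_fun_pow_zero]
    by_cases h : k = i
    · subst h
      rw [if_pos rfl, if_pos rfl]
    · rw [if_neg h, if_neg (fun h' => h (Fin.ext (by omega))), Nat.cast_zero, mul_zero]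
  rw [Finset.sum_congr rfl fun k _ => h1 k, Finset.sum_ite_eq' Finset.univ i, if_pos
    (Finset.mem_univ i), mul_div_assoc, div_self, mul_one]
  exact_mod_cast (Nat.factorial_pos _).ne'

/-- **lower estimate** -/
theorem lower_est {a b : ℝ} {N : ℕ} (hN : 1 ≤ N) (hab : 2 * Real.pi ≤ N * (b - a)) {m J L : ℕ}
    (hm : 1 ≤ m) (c : Fin L → ℂ) {B : ℝ}
    (hB : ∀ (ζ : ℂ) (hζ : ζ ∈ arc a b) (j : ℕ),
      ‖coefG (arc_sub a b hζ) j (P a b N J L c)‖ ≤ B * (m : ℝ) ^ (j + 1)) (i : Fin L) :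
    ‖c i‖ * ((1 + 1 / (2 * (m : ℝ))) ^ N) ^ (J + (i : ℕ)) ≤ 2 * B * m := by
  have hm' : (0 : ℝ) < m := by exact_mod_cast hm
  set q : ℂ → ℂ := fun z => ∑ i : Fin L, c i * (z ^ N) ^ (J + (i : ℕ)) with hq
  set p : ℂ → ℂ := fun z => ∑ i : Fin L, c i * z ^ (J + (i : ℕ)) with hp
  have hpa : AnalyticOnNhd ℂ p univ := fun z _ => by
    rw [hp]
    exact Finset.analyticAt_fun_sum _ fun i _ => analyticAt_const.mul (analyticAt_id.pow _)
  have hqa : AnalyticOnNhd ℂ q univ := fun z _ => by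
    rw [hq]
    exact Finset.analyticAt_fun_sum _ fun i _ =>
      analyticAt_const.mul ((analyticAt_id.pow _).pow _)
  set t : ℝ := 1 + 1 / (2 * (m : ℝ)) with ht
  have ht1 : 1 < t := by rw [ht]; have : 0 < 1 / (2 * (m : ℝ)) := by positivity
                         linarith
  have hρ : 0 < t ^ N := by positivity
  -- bound of `q`
  have hq2 : ∀ ζ ∈ arc a b, ‖q (t * ζ)‖ ≤ 2 * B * m := by
    intro ζ hζ
    have hcf : ∀ j, ‖cf q ζ j‖ ≤ B * (m : ℝ) ^ (j + 1) := by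
      intro j
      have := hB ζ hζ j
      rwa [coefG_P] at this
    have h1 : HasSum (fun j => cf q ζ j * ((t * ζ) - ζ) ^ j) (q (t * ζ)) :=
      cf_hasSum (r := ‖(t * ζ) - ζ‖ + 1) (hqa.mono (subset_univ _)) (by
        rw [mem_ball, dist_eq_norm]; linarith)
    have h2 : ‖(t * ζ) - ζ‖ = 1 / (2 * (m : ℝ)) := by
      have : (t * ζ) - ζ = ((1 / (2 * (m : ℝ)) : ℝ) : ℂ) * ζ := by
        rw [ht]; push_cast; ring
      rw [this, norm_mul, norm_of_mem_arc hζ, mul_one, Complex.norm_real,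
        Real.norm_of_nonneg (by positivity)]
    have h3 : HasSum (fun j : ℕ => B * m * (1 / 2 : ℝ) ^ j) (B * m * 2) :=
      hasSum_geometric_two.mul_left _
    have h4 : ∀ j, ‖cf q ζ j * ((t * ζ) - ζ) ^ j‖ ≤ B * m * (1 / 2 : ℝ) ^ j := by
      intro j
      rw [norm_mul, norm_pow, h2]
      calc ‖cf q ζ j‖ * (1 / (2 * (m : ℝ))) ^ j ≤ (B * (m : ℝ) ^ (j + 1)) *
            (1 / (2 * (m : ℝ))) ^ j := by gcongr; exact hcf j
        _ = B * m * (1 / 2 : ℝ) ^ j := by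
          have : (m : ℝ) ^ (j + 1) * (1 / (2 * (m : ℝ))) ^ j = m * (1 / 2 : ℝ) ^ j := by
            rw [div_pow, mul_pow, one_pow, div_pow, one_pow]
            field_simp
            ring
          rw [mul_assoc, this]; ring
    have h5 := h1.norm_le_of_bounded h3 h4
    linarith
  -- bound of `p` on the circle
  have hp2 : ∀ w ∈ sphere (0 : ℂ) (t ^ N), ‖p w‖ ≤ 2 * B * m := by
    intro w hw
    rw [mem_sphere_zero_iff_norm] at hw
    obtain ⟨ζ, hζ, hζN⟩ := exists_root hN hab (Complex.arg w)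
    have h1 : (t * ζ) ^ N = w := by
      rw [mul_pow, hζN]
      have := Complex.norm_mul_exp_arg_mul_I w
      rw [hw] at this
      push_cast at this
      exact this
    have h2 := hq2 ζ hζ
    have h3 : q (t * ζ) = p w := by
      rw [hq, hp]
      simp only [h1]
    rwa [h3] at h2
  have h6 := cf_bound_sphere hρ hpa hp2 (J + i)
  rw [hp, cf_poly, le_div_iff₀ (by positivity)] at h6
  exact h6

end Pool.Agent.Helper18.Germ
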