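import Mathlib
import Pool.Agent.Helper18.Germ.Poly

/-!
The spaces `𝒪(𝔻 ∪ {1})` and `𝒪(𝔻 ∪ β)` are not isomorphic (problem MP_d29d91_an).
-/

set_option autoImplicit false

namespace Pool.Agent.Helper18.Germ

open Set Topology Metric Filter

/-- bounds for continuous maps into `C(D, ℂ)` -/
theorem exists_boundC {V D : Set ℂ} (L : Hol V →ₗ[ℂ] C(D, ℂ)) (hL : Continuous (fun f => L f))
    {K : Set D} (hK : IsCompact K) : ∃ K' : Set V, IsCompact K' ∧ ∃ C : ℝ, 0 < C ∧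
      ∀ (f : Hol V) (M : ℝ), 0 < M → (∀ z ∈ K', ‖f.1 z‖ ≤ M) → ∀ z ∈ K, ‖L f z‖ ≤ C * M := by
  have h0 : {g : C(D, ℂ) | ∀ z ∈ K, ‖g z‖ < 1} ∈ 𝓝 (0 : C(D, ℂ)) := by
    have h1 : IsOpen {g : C(D, ℂ) | MapsTo g K (ball 0 1)} :=
      ContinuousMap.isOpen_setOfPred_mapsTo hK isOpen_ball
    have h3 : {g : C(D, ℂ) | ∀ z ∈ K, ‖g z‖ < 1} = {g : C(D, ℂ) | MapsTo g K (ball 0 1)} := by
      ext g
      simp [MapsTo]
    rw [h3]
    refine h1.mem_nhds ?_
    intro z _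
    simp
  have h1 : (fun f => L f) ⁻¹' {g : C(D, ℂ) | ∀ z ∈ K, ‖g z‖ < 1} ∈ 𝓝 (0 : Hol V) := by
    apply hL.continuousAt.preimage_mem_nhds
    rw [map_zero]
    exact h0
  obtain ⟨K', hK', δ, hδ, h2⟩ := exists_nhds_zero h1
  refine ⟨K', hK', 2 / δ, by positivity, fun f M hM hf z hz => ?_⟩
  have h3 := h2 (((δ / (2 * M) : ℝ) : ℂ) • f) (fun w hw => by
    have h4 : ((((δ / (2 * M) : ℝ) : ℂ) • f : Hol V).1 w) = ((δ / (2 * M) : ℝ) : ℂ) * f.1 w := rfl
    rw [h4, norm_mul, Complex.norm_real, Real.norm_of_nonneg (by positivity)]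
    calc δ / (2 * M) * ‖f.1 w‖ ≤ δ / (2 * M) * M := by gcongr; exact hf w hw
      _ = δ / 2 := by field_simp
      _ < δ := by linarith)
  have h5 : ‖L (((δ / (2 * M) : ℝ) : ℂ) • f) z‖ < 1 := h3 z hz
  rw [map_smul, ContinuousMap.smul_apply, smul_eq_mul, norm_mul, Complex.norm_real,
    Real.norm_of_nonneg (by positivity), div_mul_eq_mul_div, div_lt_one (by positivity)] at h5
  rw [div_mul_eq_mul_div, le_div_iff₀ hδ]
  linarith

theorem exists_small_geom {κ A : ℝ} (h0 : 0 ≤ κ) (h1 : κ < 1) (hA : 0 < A) :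
    ∃ J : ℕ, A * (κ ^ J / (1 - κ)) ≤ 1 / 4 := by
  have h2 : 0 < (1 - κ) / (4 * A) := by
    apply div_pos <;> linarith
  obtain ⟨J, hJ⟩ := exists_pow_lt_of_lt_one h2 h1
  refine ⟨J, ?_⟩
  have h3 : κ ^ J / (1 - κ) ≤ 1 / (4 * A) := by
    rw [div_le_div_iff₀ (by linarith) (by positivity)]
    rw [lt_div_iff₀ (by positivity)] at hJ
    linarith
  calc A * (κ ^ J / (1 - κ)) ≤ A * (1 / (4 * A)) := by gcongr
    _ = 1 / 4 := by field_simp

theorem exists_small_lin {A : ℝ} (hA : 0 < A) :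
    ∃ M : ℕ, A * (((M : ℝ) + 1) * (1 / 2) ^ M) ≤ 1 / 4 := by
  obtain ⟨M, hM⟩ := exists_pow_lt_of_lt_one (show (0 : ℝ) < 1 / (8 * A) by positivity)
    (show (3 / 4 : ℝ) < 1 by norm_num)
  refine ⟨M, ?_⟩
  have h1 : (1 : ℝ) + M * (1 / 2) ≤ (1 + 1 / 2) ^ M := one_add_mul_le_pow (by norm_num) M
  have h2 : ((M : ℝ) + 1) * (1 / 2) ^ M ≤ 2 * (3 / 4) ^ M := by
    have h3 : (M : ℝ) + 1 ≤ 2 * (3 / 2) ^ M := by
      have : (1 : ℝ) + 1 / 2 = 3 / 2 := by norm_num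
      rw [this] at h1
      linarith
    calc ((M : ℝ) + 1) * (1 / 2) ^ M ≤ (2 * (3 / 2) ^ M) * (1 / 2) ^ M := by gcongr
      _ = 2 * (3 / 4) ^ M := by
        rw [mul_assoc, ← mul_pow]; norm_num
  calc A * (((M : ℝ) + 1) * (1 / 2) ^ M) ≤ A * (2 * (3 / 4) ^ M) :=
        mul_le_mul_of_nonneg_left h2 hA.le
    _ ≤ A * (2 * (1 / (8 * A))) := by gcongr
    _ = 1 / 4 := by field_simp; norm_num

/-- **Main theorem.** -/
theorem no_iso {a b : ℝ} (hab : a < b) (Ψ : Germs E1 ≃L[ℂ] Germs (E2 a b)) : False := by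
  -- the exponent `N`
  obtain ⟨N, hN⟩ := exists_nat_ge (max 1 (2 * Real.pi / (b - a)))
  have hN1 : 1 ≤ N := by exact_mod_cast (le_max_left _ _).trans hN
  have hNab : 2 * Real.pi ≤ N * (b - a) := by
    have := (le_max_right _ _).trans hN
    rwa [div_le_iff₀ (by linarith)] at this
  -- first application of the Baire category lemma
  set u : Hol (ball (0 : ℂ) 2) →ₗ[ℂ] Germs E1 :=
    (Ψ.symm.toContinuousLinearMap : Germs (E2 a b) →ₗ[ℂ] Germs E1).comp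
      (Tr a b N one_lt_two) with hu_def
  have hu : Continuous (fun f => u f) := Ψ.symm.continuous.comp (continuous_Tr a b N one_lt_two)
  obtain ⟨n1, K2, C1, hn1, hK2, hC1, hb1⟩ := baire_lemma (E := E1) (β := {1}) isOpen_ball
    isCompact_singleton (singleton_subset_iff.2 one_mem) u hu
  have hn1' : (0 : ℝ) < n1 := by exact_mod_cast hn1
  set δ : ℝ := 1 / (8 * n1) with hδ_def
  have hδ : 0 < δ := by positivity
  have hnδ : (n1 : ℝ) * δ = 1 / 8 := by rw [hδ_def]; field_simp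
  -- second application of the Baire category lemma
  set v : Hol (Wd hδ).carrier →ₗ[ℂ] Germs (E2 a b) :=
    (Ψ.toContinuousLinearMap : Germs E1 →ₗ[ℂ] Germs (E2 a b)).comp (toGerm (Wd hδ)) with hv_def
  have hv : Continuous (fun f => v f) := Ψ.continuous.comp (continuous_toGerm (Wd hδ))
  obtain ⟨m, K3, C3, hm, hK3, hC3, hb3⟩ := baire_lemma (E := E2 a b) (β := arc a b)
    (Wd hδ).isOpen (isCompact_arc a b) (arc_sub a b) v hv
  have hm' : (0 : ℝ) < m := by exact_mod_cast hm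
  set ρ : ℝ := (1 + 1 / (2 * (m : ℝ))) ^ N with hρ_def
  have hρ : 1 < ρ := by
    have h1 : 1 < 1 + 1 / (2 * (m : ℝ)) := by
      have : 0 < 1 / (2 * (m : ℝ)) := by positivity
      linarith
    exact one_lt_pow₀ h1 (by omega)
  set r2 : ℝ := (1 + ρ) / 2 with hr2_def
  have hr2 : 1 < r2 := by rw [hr2_def]; linarith
  have hr2ρ : r2 < ρ := by rw [hr2_def]; linarith
  -- the compact subset of the disc
  set K1 : Set (ball (0 : ℂ) 1) :=
    (fun z : ball (0 : ℂ) 1 => (z : ℂ)) ⁻¹' ((Subtype.val '' K3) \ ball 1 δ) with hK1_def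
  have hK1 : IsCompact K1 := by
    refine compact_sub ((Subtype.isCompact_iff.1 hK3).diff isOpen_ball) ?_
    rintro z ⟨⟨w, _, rfl⟩, hz⟩
    rcases w.2 with h | h
    · exact h
    · exact absurd h hz
  set u3 : Hol (ball (0 : ℂ) r2) →ₗ[ℂ] C(ball (0 : ℂ) 1, ℂ) := (resG ball_sub).comp
    ((Ψ.symm.toContinuousLinearMap : Germs (E2 a b) →ₗ[ℂ] Germs E1).comp
      (Tr a b N hr2)) with hu3_def
  have hu3 : Continuous (fun f => u3 f) :=
    (continuous_resG ball_sub).comp (Ψ.symm.continuous.comp (continuous_Tr a b N hr2))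
  obtain ⟨K4, hK4, C2, hC2, hb4⟩ := exists_boundC u3 hu3 hK1
  set κ : ℝ := r2 / ρ with hκ_def
  have hκ0 : 0 < κ := by positivity
  have hκ1 : κ < 1 := by rw [hκ_def, div_lt_one (by linarith)]; exact hr2ρ
  obtain ⟨J, hJ⟩ := exists_small_geom (A := 2 * m * C3 * C2) hκ0.le hκ1 (by positivity)
  obtain ⟨M, hM⟩ := exists_small_lin (A := 2 * m * C3 * (2 * C1 * n1 * 2 ^ J)) (by positivity)
  -- the polynomial
  obtain ⟨c, hc0, hc⟩ : ∃ c : Fin (M + 1) → ℂ, c ≠ 0 ∧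
      ∀ j : Fin M, coefG one_mem j (Ψ.symm (P a b N J (M + 1) c)) = 0 := by
    set F : (Fin (M + 1) → ℂ) →ₗ[ℂ] (Fin M → ℂ) := LinearMap.pi fun j : Fin M =>
      (coefG one_mem j).comp
        ((Ψ.symm.toContinuousLinearMap : Germs (E2 a b) →ₗ[ℂ] Germs E1).comp
          (P a b N J (M + 1))) with hF
    have h1 : LinearMap.ker F ≠ ⊥ := LinearMap.ker_ne_bot_of_finrank_lt (by simp)
    obtain ⟨c, hc, hc0⟩ := (Submodule.ne_bot_iff _).1 h1
    refine ⟨c, hc0, fun j => ?_⟩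
    rw [LinearMap.mem_ker] at hc
    exact congrFun hc j
  obtain ⟨i0, hi0⟩ := Finite.exists_max (fun i : Fin (M + 1) => ‖c i‖ * ρ ^ (J + (i : ℕ)))
  set μ : ℝ := ‖c i0‖ * ρ ^ (J + (i0 : ℕ)) with hμ
  have hρ0 : 0 < ρ := by linarith
  have hμ0 : 0 < μ := by
    obtain ⟨i, hi⟩ := Function.ne_iff.1 hc0
    refine lt_of_lt_of_le ?_ (hi0 i)
    have : 0 < ‖c i‖ := norm_pos_iff.2 hi
    positivity
  have hci : ∀ i, ‖c i‖ ≤ μ := by
    intro i
    refine le_trans ?_ (hi0 i)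
    exact le_mul_of_one_le_right (norm_nonneg _) (one_le_pow₀ hρ.le)
  -- the sums
  set S2 : ℝ := ∑ i, ‖c i‖ * 2 ^ (J + (i : ℕ)) with hS2
  set Sr : ℝ := ∑ i, ‖c i‖ * r2 ^ (J + (i : ℕ)) with hSr
  have hr20 : 0 < r2 := by linarith
  have hS2pos : 0 < S2 := by
    obtain ⟨i, hi⟩ := Function.ne_iff.1 hc0
    have h1 : 0 < ‖c i‖ := norm_pos_iff.2 hi
    exact Finset.sum_pos' (fun i _ => by positivity) ⟨i, Finset.mem_univ _, by positivity⟩
  have hSrpos : 0 < Sr := by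
    obtain ⟨i, hi⟩ := Function.ne_iff.1 hc0
    have h1 : 0 < ‖c i‖ := norm_pos_iff.2 hi
    exact Finset.sum_pos' (fun i _ => by positivity) ⟨i, Finset.mem_univ _, by positivity⟩
  have hS2le : S2 ≤ ((M : ℝ) + 1) * (2 ^ J * 2 ^ M) * μ := by
    calc S2 ≤ ∑ i : Fin (M + 1), μ * (2 ^ J * 2 ^ M) := by
          refine Finset.sum_le_sum fun i _ => ?_
          have h1 : (2 : ℝ) ^ (J + (i : ℕ)) ≤ 2 ^ J * 2 ^ M := by
            rw [← pow_add]
            exact pow_le_pow_right₀ (by norm_num) (by have := i.2; omega)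
          have := hci i
          gcongr
      _ = ((M : ℝ) + 1) * (2 ^ J * 2 ^ M) * μ := by
          rw [Finset.sum_const, Finset.card_univ, Fintype.card_fin, nsmul_eq_mul]
          push_cast
          ring
  have hSrle : Sr ≤ μ * (κ ^ J / (1 - κ)) := by
    have h1 : ∀ i : Fin (M + 1), ‖c i‖ * r2 ^ (J + (i : ℕ)) ≤ μ * κ ^ J * κ ^ (i : ℕ) := by
      intro i
      have h2 : r2 = κ * ρ := by rw [hκ_def]; field_simp
      calc ‖c i‖ * r2 ^ (J + (i : ℕ)) = (‖c i‖ * ρ ^ (J + (i : ℕ))) * κ ^ (J + (i : ℕ)) := by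
            rw [h2, mul_pow]; ring
        _ ≤ μ * κ ^ (J + (i : ℕ)) := by
            have := hi0 i
            gcongr
        _ = μ * κ ^ J * κ ^ (i : ℕ) := by rw [pow_add]; ring
    have h2 : ∑ i ∈ Finset.range (M + 1), κ ^ i ≤ (1 - κ)⁻¹ := by
      rw [← tsum_geometric_of_lt_one hκ0.le hκ1]
      exact (summable_geometric_of_lt_one hκ0.le hκ1).sum_le_tsum _ (fun i _ => by positivity)
    calc Sr ≤ ∑ i : Fin (M + 1), μ * κ ^ J * κ ^ (i : ℕ) := Finset.sum_le_sum fun i _ => h1 i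
      _ = μ * κ ^ J * ∑ i ∈ Finset.range (M + 1), κ ^ i := by
          rw [← Finset.mul_sum, Fin.sum_univ_eq_sum_range (fun i => κ ^ i) (M + 1)]
      _ ≤ μ * κ ^ J * (1 - κ)⁻¹ := by gcongr
      _ = μ * (κ ^ J / (1 - κ)) := by rw [div_eq_mul_inv]; ring
  -- the germ and its extension
  set x : Germs E1 := Ψ.symm (P a b N J (M + 1) c) with hx
  have hx1 : ∀ j, ‖coefG one_mem j x‖ ≤ (C1 * S2) * (n1 : ℝ) ^ (j + 1) := by
    intro j
    have h1 := hb1 (Q 2 J c) S2 hS2pos (fun z _ => Q_bound J c z) 1 rfl j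
    have h2 : u (Q 2 J c) = x := by
      rw [hu_def, hx, LinearMap.comp_apply, Tr_Q]
      rfl
    rw [h2] at h1
    exact h1
  obtain ⟨H, hH1, hH2, hH3⟩ := glue x hx1 hδ (by rw [hnδ]; norm_num)
  -- bound of `H` on `K3`
  set B : ℝ := 2 * C1 * S2 * n1 * (1 / 4) ^ M + C2 * Sr with hB
  have hB0 : 0 < B := by positivity
  have hHB : ∀ z ∈ K3, ‖H.1 z‖ ≤ B := by
    intro z hz
    rw [← ex_apply H z.2]
    by_cases hzδ : (z : ℂ) ∈ ball (1 : ℂ) δ
    · have h1 := hH3 z hzδ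
      have h2 : HasSum (fun j : ℕ => C1 * S2 * n1 * (1 / 4) ^ M * (1 / 2 : ℝ) ^ j)
          (C1 * S2 * n1 * (1 / 4) ^ M * 2) := hasSum_geometric_two.mul_left _
      have h3 : ∀ j, ‖coefG one_mem j x * ((z : ℂ) - 1) ^ j‖ ≤
          C1 * S2 * n1 * (1 / 4) ^ M * (1 / 2 : ℝ) ^ j := by
        intro j
        rcases Nat.lt_or_ge j M with hj | hj
        · have h4 := hc ⟨j, hj⟩
          change coefG one_mem j x = 0 at h4
          rw [h4, zero_mul, norm_zero]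
          positivity
        · rw [norm_mul, norm_pow]
          rw [mem_ball, dist_eq_norm] at hzδ
          have h5 : (1 / 8 : ℝ) ^ j ≤ (1 / 4) ^ M * (1 / 2) ^ j := by
            have : (1 / 8 : ℝ) ^ j = (1 / 4) ^ j * (1 / 2) ^ j := by rw [← mul_pow]; norm_num
            rw [this]
            gcongr ?_ * _
            exact pow_le_pow_of_le_one (by norm_num) (by norm_num) hj
          calc ‖coefG one_mem j x‖ * ‖(z : ℂ) - 1‖ ^ j ≤
                ((C1 * S2) * (n1 : ℝ) ^ (j + 1)) * δ ^ j := by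
                gcongr
                exact hx1 j
            _ = C1 * S2 * n1 * ((n1 : ℝ) * δ) ^ j := by rw [mul_pow]; ring
            _ = C1 * S2 * n1 * (1 / 8) ^ j := by rw [hnδ]
            _ ≤ C1 * S2 * n1 * ((1 / 4) ^ M * (1 / 2) ^ j) := by gcongr
            _ = C1 * S2 * n1 * (1 / 4) ^ M * (1 / 2 : ℝ) ^ j := by ring
      have h4 := h1.norm_le_of_bounded h2 h3
      have h5 : 0 < C2 * Sr := by positivity
      rw [hB]
      linarith
    · have hzD : (z : ℂ) ∈ ball (0 : ℂ) 1 := by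
        rcases z.2 with h | h
        · exact h
        · exact absurd h hzδ
      have h1 := hH2 ⟨z, hzD⟩
      have h2 := hb4 (Q r2 J c) Sr hSrpos (fun z _ => Q_bound J c z) ⟨z, hzD⟩
        ⟨⟨z, hz, rfl⟩, hzδ⟩
      have h3 : u3 (Q r2 J c) = resG ball_sub x := by
        rw [hu3_def, hx, LinearMap.comp_apply, LinearMap.comp_apply, Tr_Q]
        rfl
      rw [h3, ← h1] at h2
      have h5 : 0 < 2 * C1 * S2 * n1 * (1 / 4) ^ M := by positivity
      rw [hB]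
      have h6 : ‖ex H (z : ℂ)‖ ≤ C2 * Sr := h2
      linarith
  -- lower estimate
  have hlow : ∀ (ζ : ℂ) (hζ : ζ ∈ arc a b) (j : ℕ),
      ‖coefG (arc_sub a b hζ) j (P a b N J (M + 1) c)‖ ≤ (C3 * B) * (m : ℝ) ^ (j + 1) := by
    intro ζ hζ j
    have h1 := hb3 H B hB0 hHB ζ hζ j
    have h2 : v H = P a b N J (M + 1) c := by
      rw [hv_def, LinearMap.comp_apply, hH1, hx]
      exact Ψ.apply_symm_apply _
    rw [h2] at h1
    exact h1
  have hfin := lower_est hN1 hNab hm c hlow i0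
  have hfin2 : μ ≤ 2 * (C3 * B) * m := hfin
  -- contradiction
  have h1 : 2 * m * C3 * (2 * C1 * S2 * n1 * (1 / 4) ^ M) ≤ μ * (1 / 4) := by
    calc 2 * m * C3 * (2 * C1 * S2 * n1 * (1 / 4) ^ M) ≤
          2 * m * C3 * (2 * C1 * (((M : ℝ) + 1) * (2 ^ J * 2 ^ M) * μ) * n1 * (1 / 4) ^ M) := by
          gcongr
      _ = μ * (2 * m * C3 * (2 * C1 * n1 * 2 ^ J) * (((M : ℝ) + 1) * (1 / 2) ^ M)) := by
          have : (2 : ℝ) ^ M * (1 / 4) ^ M = (1 / 2) ^ M := by rw [← mul_pow]; norm_num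
          rw [← this]; ring
      _ ≤ μ * (1 / 4) := by gcongr
  have h2 : 2 * m * C3 * (C2 * Sr) ≤ μ * (1 / 4) := by
    calc 2 * m * C3 * (C2 * Sr) ≤ 2 * m * C3 * (C2 * (μ * (κ ^ J / (1 - κ)))) := by gcongr
      _ = μ * (2 * m * C3 * C2 * (κ ^ J / (1 - κ))) := by ring
      _ ≤ μ * (1 / 4) := by gcongr
  have h3 : 2 * (C3 * B) * m = 2 * m * C3 * (2 * C1 * S2 * n1 * (1 / 4) ^ M) +
      2 * m * C3 * (C2 * Sr) := by rw [hB]; ring
  linarith

end Pool.Agent.Helper18.Germ
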